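import Mathlib

/-!
The fibres of a finite free algebra over `ℚ[X]`.
-/

set_option autoImplicit false

open Polynomial Module

namespace Pool.Agent.Helper892.EC

/-- the ideal of the fibre over `t` -/
noncomputable def fib (A : Type) [CommRing A] [Algebra ℚ[X] A] (t : ℚ) : Ideal A :=
  Ideal.span {algebraMap ℚ[X] A (X - C t)}

/-- the closed points of the fibre over `t` -/
def pts (A : Type) [CommRing A] [Algebra ℚ[X] A] (t : ℚ) : Set (Ideal A) :=
  {P | P.IsMaximal ∧ algebraMap ℚ[X] A (X - C t) ∈ P}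

variable {A : Type} [CommRing A] [Algebra ℚ[X] A] {N : ℕ} (v : Basis (Fin N) ℚ[X] A)

lemma mem_fib_iff (t : ℚ) (z : A) : z ∈ fib A t ↔ ∀ l, (v.repr z l).eval t = 0 := by
  unfold fib
  rw [Ideal.mem_span_singleton']
  constructor
  · rintro ⟨w, rfl⟩ l
    have h1 : w * algebraMap ℚ[X] A (X - C t) = (X - C t) • w := by
      rw [Algebra.smul_def, mul_comm]
    rw [h1, map_smul, Finsupp.smul_apply, smul_eq_mul, eval_mul]
    simp
  · intro h
    have h1 : ∀ l, ∃ g : ℚ[X], v.repr z l = (X - C t) * g := fun l => dvd_iff_isRoot.2 (h l)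
    choose g hg using h1
    refine ⟨∑ l, g l • v l, ?_⟩
    rw [mul_comm, ← Algebra.smul_def, Finset.smul_sum]
    conv_rhs => rw [← v.sum_repr z]
    refine Finset.sum_congr rfl fun l _ => ?_
    rw [hg l, smul_smul]

lemma fib_le {t : ℚ} {P : Ideal A} (hP : P ∈ pts A t) : fib A t ≤ P := by
  unfold fib
  rw [Ideal.span_singleton_le_iff_mem]
  exact hP.2

variable [Algebra ℚ A] [IsScalarTower ℚ ℚ[X] A]

lemma repr_smul_rat (q : ℚ) (z : A) (l : Fin N) : v.repr (q • z) l = C q * v.repr z l := by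
  have h1 : q • z = (C q) • z := by
    rw [← algebraMap_smul ℚ[X] q z]
    rfl
  rw [h1, map_smul, Finsupp.smul_apply, smul_eq_mul]

lemma repr_comb (g : Fin N → ℚ) (l : Fin N) : v.repr (∑ i, g i • v i) l = C (g l) := by
  classical
  rw [map_sum, Finsupp.finsetSum_apply]
  rw [Finset.sum_eq_single l]
  · rw [repr_smul_rat, v.repr_self_apply, if_pos rfl, mul_one]
  · intro i _ hi
    rw [repr_smul_rat, v.repr_self_apply, if_neg hi, mul_zero]
  · intro h
    exact absurd (Finset.mem_univ _) h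

/-- the basis of the fibre -/
noncomputable def basE (t : ℚ) : Basis (Fin N) ℚ (A ⧸ fib A t) := by
  refine Basis.mk (v := fun i => Ideal.Quotient.mk (fib A t) (v i)) ?_ ?_
  · rw [Fintype.linearIndependent_iff]
    intro g hg l
    have h1 : Ideal.Quotient.mk (fib A t) (∑ i, g i • v i) = 0 := by
      rw [← hg, map_sum]
      rfl
    rw [Ideal.Quotient.eq_zero_iff_mem, mem_fib_iff v] at h1
    have h2 := h1 l
    rwa [repr_comb, eval_C] at h2
  · rintro y -
    obtain ⟨z, rfl⟩ := Ideal.Quotient.mk_surjective y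
    have h1 : Ideal.Quotient.mk (fib A t) z =
        Ideal.Quotient.mk (fib A t) (∑ i, (v.repr z i).eval t • v i) := by
      rw [Ideal.Quotient.eq, mem_fib_iff v]
      intro l
      rw [map_sub, Finsupp.sub_apply, repr_comb, eval_sub, eval_C, sub_self]
    rw [h1, map_sum]
    refine Submodule.sum_mem _ fun i _ => ?_
    have h2 : Ideal.Quotient.mk (fib A t) ((v.repr z i).eval t • v i) =
        (v.repr z i).eval t • Ideal.Quotient.mk (fib A t) (v i) := rfl
    rw [h2]
    exact Submodule.smul_mem _ _ (Submodule.subset_span ⟨i, rfl⟩)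

include v

lemma finrank_fib (t : ℚ) : finrank ℚ (A ⧸ fib A t) = N := by
  rw [finrank_eq_card_basis (basE v t), Fintype.card_fin]

lemma finite_fib (t : ℚ) : Module.Finite ℚ (A ⧸ fib A t) := Module.Finite.of_basis (basE v t)

lemma finite_quot {t : ℚ} {P : Ideal A} (hP : P ∈ pts A t) : Module.Finite ℚ (A ⧸ P) := by
  have := finite_fib v t
  exact Module.Finite.of_surjective (Ideal.Quotient.factorₐ ℚ (fib_le hP)).toLinearMap
    (Ideal.Quotient.factor_surjective (fib_le hP))

lemma artinian (t : ℚ) : IsArtinianRing (A ⧸ fib A t) := by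
  have := finite_fib v t
  exact IsArtinianRing.of_finite ℚ _

lemma finite_pts (t : ℚ) : (pts A t).Finite := by
  have := artinian v t
  have hfin : (Set.range fun M : MaximalSpectrum (A ⧸ fib A t) =>
      M.asIdeal.comap (Ideal.Quotient.mk (fib A t))).Finite := Set.finite_range _
  refine hfin.subset ?_
  intro P hP
  have h1 : (P.map (Ideal.Quotient.mk (fib A t))).comap (Ideal.Quotient.mk (fib A t)) = P := by
    rw [Ideal.comap_map_of_surjective _ Ideal.Quotient.mk_surjective, ← RingHom.ker_eq_comap_bot,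
      Ideal.mk_ker, sup_eq_left.2 (fib_le hP)]
  have h2 : (P.map (Ideal.Quotient.mk (fib A t))).IsMaximal := by
    have hPm := hP.1
    refine (Ideal.map_eq_top_or_isMaximal_of_surjective _ Ideal.Quotient.mk_surjective
      hP.1).resolve_left fun h => ?_
    rw [h, Ideal.comap_top] at h1
    exact hP.1.ne_top h1.symm
  exact ⟨⟨_, h2⟩, h1⟩

lemma iInf_pts (t : ℚ) (hred : IsReduced (A ⧸ fib A t)) (z : A) (hz : ∀ P ∈ pts A t, z ∈ P) :
    z ∈ fib A t := by
  have := artinian v t
  have h1 : Ideal.Quotient.mk (fib A t) z ∈ nilradical (A ⧸ fib A t) := by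
    rw [IsArtinianRing.nilradical_eq_iInf]
    simp only [Ideal.mem_iInf]
    intro M
    have hM := M.isMaximal
    have h2 : M.asIdeal.comap (Ideal.Quotient.mk (fib A t)) ∈ pts A t := by
      refine ⟨Ideal.comap_isMaximal_of_surjective _ Ideal.Quotient.mk_surjective, ?_⟩
      rw [Ideal.mem_comap]
      have : Ideal.Quotient.mk (fib A t) (algebraMap ℚ[X] A (X - C t)) = 0 := by
        rw [Ideal.Quotient.eq_zero_iff_mem]
        exact Ideal.mem_span_singleton_self _
      rw [this]
      exact zero_mem _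
    exact hz _ h2
  rw [nilradical_eq_zero, Ideal.zero_eq_bot, Ideal.mem_bot, Ideal.Quotient.eq_zero_iff_mem] at h1
  exact h1

/-- the degrees of the points of a fibre -/
lemma sum_finrank (t : ℚ) (hred : IsReduced (A ⧸ fib A t)) [Fintype (pts A t)] :
    ∑ P : pts A t, finrank ℚ (A ⧸ P.1) = N := by
  classical
  have hfin : ∀ P : pts A t, Module.Finite ℚ (A ⧸ P.1) := fun P => finite_quot v P.2
  have hcop : Pairwise (Function.onFun IsCoprime fun P : pts A t => P.1) := by
    intro P Q hPQ
    exact (Ideal.isCoprime_iff_sup_eq).2 (P.2.1.coprime_of_ne Q.2.1 fun h => hPQ (Subtype.ext h))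
  let g : A →ₐ[ℚ] ∀ P : pts A t, A ⧸ P.1 := AlgHom.pi fun P => Ideal.Quotient.mkₐ ℚ P.1
  have hg : Function.Surjective g := by
    intro y
    obtain ⟨r, hr⟩ := Ideal.pi_quotient_surjective hcop y
    exact ⟨r, funext hr⟩
  have hker : RingHom.ker g = fib A t := by
    ext z
    rw [RingHom.mem_ker]
    constructor
    · intro h
      refine iInf_pts v t hred z fun P hP => ?_
      have := congrFun h ⟨P, hP⟩
      exact Ideal.Quotient.eq_zero_iff_mem.1 this
    · intro h
      funext P
      exact Ideal.Quotient.eq_zero_iff_mem.2 (fib_le P.2 h)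
  have h1 : finrank ℚ (A ⧸ RingHom.ker g) = finrank ℚ (∀ P : pts A t, A ⧸ P.1) :=
    (Ideal.quotientKerAlgEquivOfSurjective hg).toLinearEquiv.finrank_eq
  have h2 : finrank ℚ (A ⧸ RingHom.ker g) = finrank ℚ (A ⧸ fib A t) :=
    (Ideal.quotientEquivAlgOfEq ℚ hker).toLinearEquiv.finrank_eq
  rw [← Module.finrank_pi_fintype, ← h1, h2, finrank_fib v]

/-- the residue fields are number fields -/
lemma numberField_quot {t : ℚ} {P : Ideal A} (hP : P ∈ pts A t) :
    @NumberField (A ⧸ P) (@Ideal.Quotient.field _ _ P hP.1) := by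
  have hPm := hP.1
  let iF : Field (A ⧸ P) := Ideal.Quotient.field P
  have h1 : Module.Finite ℚ (A ⧸ P) := finite_quot v hP
  have h2 : CharZero (A ⧸ P) := algebraRat.charZero (A ⧸ P)
  refine @NumberField.mk (A ⧸ P) iF h2 ?_
  have h3 : (DivisionRing.toRatAlgebra : Algebra ℚ (A ⧸ P)) = Ideal.Quotient.algebra ℚ :=
    Subsingleton.elim _ _
  rw [h3]
  exact h1

/-- the number of embeddings -/
lemma card_emb {t : ℚ} {P : Ideal A} (hP : P ∈ pts A t) (iF : Fintype (A ⧸ P →+* ℂ)) :
    Fintype.card (A ⧸ P →+* ℂ) = finrank ℚ (A ⧸ P) := by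
  have hPm := hP.1
  let iF : Field (A ⧸ P) := Ideal.Quotient.field P
  have h0 : NumberField (A ⧸ P) := numberField_quot v hP
  have h1 := NumberField.Embeddings.card (A ⧸ P) ℂ
  have h3 : (DivisionRing.toRatAlgebra : Algebra ℚ (A ⧸ P)) = Ideal.Quotient.algebra ℚ :=
    Subsingleton.elim _ _
  rw [h3] at h1
  convert h1

end Pool.Agent.Helper892.EC
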