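import Mathlib

/-!
Values of the elements of a basis of a finite algebra over `ℚ[X]` at points.
-/

set_option autoImplicit false

open Polynomial Module Matrix

namespace Pool.Agent.Helper892.EC

/-- a common denominator -/
lemma exists_den {ι : Type} [Fintype ι] (f : ι → ℚ[X]) : ∃ κ : ℤ, 0 < κ ∧
    ∀ i n, ∃ c : ℤ, (κ : ℚ) * (f i).coeff n = c := by
  classical
  let s : Finset ℚ := Finset.univ.biUnion fun i => (f i).support.image (f i).coeff
  have hd : ∀ q ∈ s, q.den ∣ ∏ q ∈ s, q.den := fun q hq => Finset.dvd_prod_of_mem _ hq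
  refine ⟨((∏ q ∈ s, q.den : ℕ) : ℤ), ?_, fun i n => ?_⟩
  · exact_mod_cast Finset.prod_pos (fun (q : ℚ) _ => q.den_pos)
  · by_cases h : (f i).coeff n = 0
    · exact ⟨0, by rw [h]; simp⟩
    · have hmem : (f i).coeff n ∈ s := Finset.mem_biUnion.2 ⟨i, Finset.mem_univ _,
        Finset.mem_image.2 ⟨n, mem_support_iff.2 h, rfl⟩⟩
      obtain ⟨m, hm⟩ := hd _ hmem
      refine ⟨m * ((f i).coeff n).num, ?_⟩
      rw [hm]
      push_cast
      have h1 := Rat.mul_den_eq_num ((f i).coeff n)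
      calc ((((f i).coeff n).den : ℚ) * m) * (f i).coeff n =
            m * ((f i).coeff n * ((f i).coeff n).den) := by ring
        _ = m * ((f i).coeff n).num := by rw [h1]

/-- the homogenisation at a fraction -/
lemma hom_eq (f : ℚ[X]) {D : ℕ} (hD : f.natDegree ≤ D) {a b : ℕ} (hb : 0 < b) :
    (b : ℚ) ^ D * f.eval ((a : ℚ) / b) =
      ∑ i ∈ Finset.range (D + 1), f.coeff i * (a : ℚ) ^ i * (b : ℚ) ^ (D - i) := by
  have hb' : (b : ℚ) ≠ 0 := by exact_mod_cast hb.ne'
  rw [eval_eq_sum_range' (by omega : f.natDegree < D + 1), Finset.mul_sum]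
  refine Finset.sum_congr rfl fun i hi => ?_
  rw [Finset.mem_range] at hi
  have e1 : (b : ℚ) ^ D = (b : ℚ) ^ i * (b : ℚ) ^ (D - i) := by
    rw [← pow_add]
    congr 1
    omega
  rw [e1, div_pow]
  field_simp

lemma hom_int (f : ℚ[X]) {D : ℕ} (hD : f.natDegree ≤ D) {κ : ℤ}
    (hκ : ∀ n, ∃ c : ℤ, (κ : ℚ) * f.coeff n = c) {a b : ℕ} (hb : 0 < b) :
    ∃ c : ℤ, (κ : ℚ) * ((b : ℚ) ^ D * f.eval ((a : ℚ) / b)) = c := by
  choose c hc using hκ
  refine ⟨∑ i ∈ Finset.range (D + 1), c i * (a : ℤ) ^ i * (b : ℤ) ^ (D - i), ?_⟩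
  rw [hom_eq f hD hb, Finset.mul_sum]
  push_cast
  refine Finset.sum_congr rfl fun i _ => ?_
  rw [← hc i]
  ring

lemma hom_abs (f : ℚ[X]) {D : ℕ} (hD : f.natDegree ≤ D) {a b : ℕ} (hb : 0 < b) (hba : b ≤ a) :
    |(b : ℚ) ^ D * f.eval ((a : ℚ) / b)| ≤ (∑ i ∈ Finset.range (D + 1), |f.coeff i|) * (a : ℚ) ^ D := by
  rw [hom_eq f hD hb, Finset.sum_mul]
  refine (Finset.abs_sum_le_sum_abs _ _).trans (Finset.sum_le_sum fun i hi => ?_)
  rw [Finset.mem_range] at hi
  rw [mul_assoc, abs_mul]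
  refine mul_le_mul_of_nonneg_left ?_ (abs_nonneg _)
  have hb' : (0 : ℚ) ≤ b := Nat.cast_nonneg _
  have hba' : (b : ℚ) ≤ a := by exact_mod_cast hba
  have ha' : (0 : ℚ) ≤ a := Nat.cast_nonneg _
  rw [abs_of_nonneg (by positivity)]
  calc (a : ℚ) ^ i * (b : ℚ) ^ (D - i) ≤ (a : ℚ) ^ i * (a : ℚ) ^ (D - i) := by
        gcongr
    _ = (a : ℚ) ^ D := by
        rw [← pow_add]
        congr 1
        omega

variable {A : Type} [CommRing A] [Algebra ℚ[X] A]

/-- the value of a scalar -/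
lemma map_scalar {L : Type} [Field L] [CharZero L] (φ : A →+* L) {t : ℚ}
    (ht : φ (algebraMap ℚ[X] A X) = (t : L)) (f : ℚ[X]) :
    φ (algebraMap ℚ[X] A f) = ((f.eval t : ℚ) : L) := by
  have h : φ.comp (algebraMap ℚ[X] A) = (algebraMap ℚ L).comp (evalRingHom t) := by
    refine Polynomial.ringHom_ext (fun q => ?_) ?_
    · have h1 : ((φ.comp (algebraMap ℚ[X] A)).comp C) = algebraMap ℚ L := Subsingleton.elim _ _
      have h2 := RingHom.congr_fun h1 q
      have h3 : ((algebraMap ℚ L).comp (evalRingHom t)) (C q) = algebraMap ℚ L q := by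
        rw [RingHom.comp_apply, coe_evalRingHom, eval_C]
      rw [h3]
      exact h2
    · simpa using ht
  have := RingHom.congr_fun h f
  simpa using this

variable {N : ℕ} (v : Basis (Fin N) ℚ[X] A) (e : Fin N → ℕ)

/-- the structure constants -/
noncomputable def ga (i j l : Fin N) : ℚ[X] := v.repr (v i * v j) l

lemma map_eq {L : Type} [Field L] [CharZero L] (φ : A →+* L) {t : ℚ}
    (ht : φ (algebraMap ℚ[X] A X) = (t : L)) (z : A) :
    φ z = ∑ l, (((v.repr z l).eval t : ℚ) : L) * φ (v l) := by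
  conv_lhs => rw [← v.sum_repr z]
  rw [map_sum]
  refine Finset.sum_congr rfl fun l _ => ?_
  rw [Algebra.smul_def, map_mul, map_scalar φ ht]

variable {v e}

lemma mul_eq (hw : ∀ i j l, ga v i j l ≠ 0 → (ga v i j l).natDegree + e l ≤ e i + e j) {κ : ℤ}
    (hκ : ∀ i j l n, ∃ c : ℤ, (κ : ℚ) * (ga v i j l).coeff n = c) {a b : ℕ} (hb : 0 < b)
    (i j l : Fin N) : ∃ c : ℤ, (κ : ℚ) * (b : ℚ) ^ (e i + e j) * (ga v i j l).eval ((a : ℚ) / b) =
      c * (b : ℚ) ^ e l := by
  by_cases h : ga v i j l = 0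
  · exact ⟨0, by rw [h]; simp⟩
  · have h1 := hw i j l h
    obtain ⟨c, hc⟩ := hom_int (ga v i j l) (D := e i + e j - e l) (by omega) (hκ i j l) (a := a) hb
    refine ⟨c, ?_⟩
    rw [← hc]
    have : (b : ℚ) ^ (e i + e j) = (b : ℚ) ^ (e i + e j - e l) * (b : ℚ) ^ e l := by
      rw [← pow_add]
      congr 1
      omega
    rw [this]
    ring

/-- the elements `κ b ^ e_i v_i(P)` are integral -/
theorem integral (hw : ∀ i j l, ga v i j l ≠ 0 → (ga v i j l).natDegree + e l ≤ e i + e j) {κ : ℤ}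
    (hκ : ∀ i j l n, ∃ c : ℤ, (κ : ℚ) * (ga v i j l).coeff n = c) {a b : ℕ} (hb : 0 < b)
    {L : Type} [Field L] [CharZero L] (φ : A →+* L)
    (ht : φ (algebraMap ℚ[X] A X) = (((a : ℚ) / b : ℚ) : L)) (i : Fin N) :
    IsIntegral ℤ ((κ : L) * (b : L) ^ e i * φ (v i)) := by
  classical
  choose c hc using mul_eq hw hκ (a := a) hb i
  set y : Fin N → L := fun l => (b : L) ^ e l * φ (v l) with hy
  have hmul : ∀ j, (κ : L) * ((b : L) ^ e i * φ (v i)) * y j = ∑ l, (c j l : L) * y l := by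
    intro j
    have h1 := map_eq v φ ht (v i * v j)
    have h2 : (κ : L) * ((b : L) ^ e i * φ (v i)) * y j =
        (κ : L) * (b : L) ^ (e i + e j) * φ (v i * v j) := by
      rw [hy, map_mul, pow_add]
      ring
    rw [h2, h1, Finset.mul_sum]
    refine Finset.sum_congr rfl fun l _ => ?_
    have h3 := congrArg (fun q : ℚ => (q : L)) (hc j l)
    push_cast at h3
    have h4 : (κ : L) * (b : L) ^ (e i + e j) * (((((v.repr (v i * v j)) l).eval ((a : ℚ) / b) : ℚ) : L) *
        φ (v l)) = ((κ : L) * (b : L) ^ (e i + e j) *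
          ((((ga v i j l).eval ((a : ℚ) / b) : ℚ)) : L)) * φ (v l) := by
      unfold ga
      ring
    rw [h4]
    have h5 : (κ : L) * (b : L) ^ (e i + e j) * ((((ga v i j l).eval ((a : ℚ) / b) : ℚ)) : L) =
        (c j l : L) * (b : L) ^ e l := by
      rw [← h3]
    rw [h5, hy]
    ring
  have hne : y ≠ 0 := by
    intro h0
    have h1 := map_eq v φ ht 1
    rw [map_one] at h1
    have h2 : ∀ l, φ (v l) = 0 := by
      intro l
      have := congrFun h0 l
      simp only [hy, Pi.zero_apply] at this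
      rcases mul_eq_zero.1 this with h3 | h3
      · exact absurd h3 (pow_ne_zero _ (by exact_mod_cast hb.ne'))
      · exact h3
    simp [h2] at h1
  let Mx : Matrix (Fin N) (Fin N) ℤ := Matrix.of fun j l => c j l
  set x : L := (κ : L) * (b : L) ^ e i * φ (v i) with hx
  have hker : (Matrix.scalar (Fin N) x - Mx.map (Int.castRingHom L)).mulVec y = 0 := by
    funext j
    rw [Matrix.sub_mulVec]
    simp only [Pi.sub_apply, Pi.zero_apply, Matrix.scalar_apply, Matrix.mulVec_diagonal]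
    rw [sub_eq_zero]
    have h1 : x * y j = ∑ l, (c j l : L) * y l := by
      rw [← hmul j, hx]
      ring
    rw [h1]
    simp [Matrix.mulVec, dotProduct, Mx]
  have hdet : (Matrix.scalar (Fin N) x - Mx.map (Int.castRingHom L)).det = 0 :=
    Matrix.exists_mulVec_eq_zero_iff.1 ⟨y, hne, hker⟩
  refine ⟨Mx.charpoly, Matrix.charpoly_monic _, ?_⟩
  have h1 : (Mx.map (Int.castRingHom L)).charpoly.eval x = 0 := by
    rw [Matrix.eval_charpoly]
    exact hdet
  rw [Matrix.charpoly_map, eval_map] at h1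
  exact h1

/-- the archimedean bound -/
theorem arch (hw : ∀ i j l, ga v i j l ≠ 0 → (ga v i j l).natDegree + e l ≤ e i + e j) :
    ∃ C : ℝ, 0 < C ∧ ∀ (a b : ℕ), 0 < b → b ≤ a → ∀ (φ : A →+* ℂ),
      φ (algebraMap ℚ[X] A X) = (((a : ℚ) / b : ℚ) : ℂ) → ∀ i, ‖(b : ℂ) ^ e i * φ (v i)‖ ≤ C * a ^ e i := by
  classical
  let G : ℚ := ∑ i, ∑ j, ∑ l, ∑ n ∈ Finset.range (e i + e j + 1), |(ga v i j l).coeff n|
  have hG0 : 0 ≤ G := by positivity
  have hGle : ∀ i j l, ∀ D, D ≤ e i + e j → ∑ n ∈ Finset.range (D + 1), |(ga v i j l).coeff n| ≤ G := by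
    intro i j l D hD
    calc ∑ n ∈ Finset.range (D + 1), |(ga v i j l).coeff n| ≤
          ∑ n ∈ Finset.range (e i + e j + 1), |(ga v i j l).coeff n| :=
          Finset.sum_le_sum_of_subset_of_nonneg (Finset.range_subset_range.2 (by omega))
            fun _ _ _ => abs_nonneg _
      _ ≤ ∑ l, ∑ n ∈ Finset.range (e i + e j + 1), |(ga v i j l).coeff n| :=
          Finset.single_le_sum (f := fun l => ∑ n ∈ Finset.range (e i + e j + 1),
            |(ga v i j l).coeff n|) (fun _ _ => by positivity) (Finset.mem_univ l)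
      _ ≤ ∑ j, ∑ l, ∑ n ∈ Finset.range (e i + e j + 1), |(ga v i j l).coeff n| :=
          Finset.single_le_sum (f := fun j => ∑ l, ∑ n ∈ Finset.range (e i + e j + 1),
            |(ga v i j l).coeff n|) (fun _ _ => by positivity) (Finset.mem_univ j)
      _ ≤ G :=
          Finset.single_le_sum (f := fun i => ∑ j, ∑ l, ∑ n ∈ Finset.range (e i + e j + 1),
            |(ga v i j l).coeff n|) (fun _ _ => by positivity) (Finset.mem_univ i)
  refine ⟨N * G + 1, by positivity, fun a b hb hba φ ht i0 => ?_⟩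
  have ha : 0 < a := lt_of_lt_of_le hb hba
  have har : (0 : ℝ) < a := by exact_mod_cast ha
  -- the normalised values
  set u : Fin N → ℝ := fun i => ‖(b : ℂ) ^ e i * φ (v i)‖ / (a : ℝ) ^ e i with hu
  have hu0 : ∀ i, 0 ≤ u i := fun i => by positivity
  obtain ⟨j, -, hj⟩ := Finset.exists_max_image (Finset.univ : Finset (Fin N)) u ⟨i0, Finset.mem_univ _⟩
  have hsq : u j * u j ≤ (N * G : ℝ) * u j := by
    have h1 := map_eq v φ ht (v j * v j)
    have h2 : ((b : ℂ) ^ e j * φ (v j)) * ((b : ℂ) ^ e j * φ (v j)) =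
        ∑ l, (b : ℂ) ^ (e j + e j) * (((ga v j j l).eval ((a : ℚ) / b) : ℚ) : ℂ) * φ (v l) := by
      have e1 : ((b : ℂ) ^ e j * φ (v j)) * ((b : ℂ) ^ e j * φ (v j)) =
          (b : ℂ) ^ (e j + e j) * φ (v j * v j) := by
        rw [map_mul, pow_add]
        ring
      rw [e1, h1, Finset.mul_sum]
      refine Finset.sum_congr rfl fun l _ => ?_
      unfold ga
      ring
    have h3 : ∀ l, ‖(b : ℂ) ^ (e j + e j) * (((ga v j j l).eval ((a : ℚ) / b) : ℚ) : ℂ) * φ (v l)‖ ≤
        G * (a : ℝ) ^ (e j + e j) * u j := by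
      intro l
      by_cases h : ga v j j l = 0
      · rw [h]
        simp only [eval_zero, Rat.cast_zero, mul_zero, zero_mul, norm_zero]
        have : (0 : ℝ) ≤ (G : ℝ) := by exact_mod_cast hG0
        have := hu0 j
        positivity
      · have h4 := hw j j l h
        have e2 : (b : ℂ) ^ (e j + e j) * (((ga v j j l).eval ((a : ℚ) / b) : ℚ) : ℂ) * φ (v l) =
            (((b : ℚ) ^ (e j + e j - e l) * (ga v j j l).eval ((a : ℚ) / b) : ℚ) : ℂ) *
              ((b : ℂ) ^ e l * φ (v l)) := by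
          have : (b : ℂ) ^ (e j + e j) = (b : ℂ) ^ (e j + e j - e l) * (b : ℂ) ^ e l := by
            rw [← pow_add]
            congr 1
            omega
          rw [this]
          push_cast
          ring
        rw [e2, norm_mul]
        have h5 := hom_abs (ga v j j l) (D := e j + e j - e l) (by omega) hb hba
        have h6 : ‖(((b : ℚ) ^ (e j + e j - e l) * (ga v j j l).eval ((a : ℚ) / b) : ℚ) : ℂ)‖ ≤
            G * (a : ℝ) ^ (e j + e j - e l) := by
          have e3 : ‖(((b : ℚ) ^ (e j + e j - e l) * (ga v j j l).eval ((a : ℚ) / b) : ℚ) : ℂ)‖ =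
              ((|(b : ℚ) ^ (e j + e j - e l) * (ga v j j l).eval ((a : ℚ) / b)| : ℚ) : ℝ) := by
            rw [← Complex.ofReal_ratCast, Complex.norm_real, Real.norm_eq_abs, Rat.cast_abs]
          rw [e3]
          have h7 : |(b : ℚ) ^ (e j + e j - e l) * (ga v j j l).eval ((a : ℚ) / b)| ≤
              G * (a : ℚ) ^ (e j + e j - e l) :=
            h5.trans (mul_le_mul_of_nonneg_right (hGle j j l _ (by omega)) (by positivity))
          have h8 : ((|(b : ℚ) ^ (e j + e j - e l) * (ga v j j l).eval ((a : ℚ) / b)| : ℚ) : ℝ) ≤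
              ((G * (a : ℚ) ^ (e j + e j - e l) : ℚ) : ℝ) := Rat.cast_le.2 h7
          push_cast at h8 ⊢
          exact h8
        have h9 : ‖(b : ℂ) ^ e l * φ (v l)‖ ≤ u j * (a : ℝ) ^ e l := by
          have := hj l (Finset.mem_univ l)
          rw [hu] at this
          simp only at this
          rwa [div_le_iff₀ (by positivity)] at this
        calc ‖(((b : ℚ) ^ (e j + e j - e l) * (ga v j j l).eval ((a : ℚ) / b) : ℚ) : ℂ)‖ *
              ‖(b : ℂ) ^ e l * φ (v l)‖ ≤
              (G * (a : ℝ) ^ (e j + e j - e l)) * (u j * (a : ℝ) ^ e l) :=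
              mul_le_mul h6 h9 (norm_nonneg _) (by
                have : (0 : ℝ) ≤ (G : ℝ) := by exact_mod_cast hG0
                positivity)
          _ = G * ((a : ℝ) ^ (e j + e j - e l) * (a : ℝ) ^ e l) * u j := by ring
          _ = G * (a : ℝ) ^ (e j + e j) * u j := by
              rw [← pow_add]
              congr 3
              omega
    have h10 : ‖((b : ℂ) ^ e j * φ (v j)) * ((b : ℂ) ^ e j * φ (v j))‖ ≤
        N * (G * (a : ℝ) ^ (e j + e j) * u j) := by
      rw [h2]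
      refine (norm_sum_le _ _).trans ((Finset.sum_le_sum fun l _ => h3 l).trans (le_of_eq ?_))
      rw [Finset.sum_const, Finset.card_univ, Fintype.card_fin, nsmul_eq_mul]
    rw [norm_mul] at h10
    have e4 : u j * u j = ‖(b : ℂ) ^ e j * φ (v j)‖ * ‖(b : ℂ) ^ e j * φ (v j)‖ /
        (a : ℝ) ^ (e j + e j) := by
      rw [hu, pow_add]
      simp only
      rw [div_mul_div_comm]
    rw [e4, div_le_iff₀ (by positivity)]
    refine h10.trans (le_of_eq ?_)
    ring
  have hle : u j ≤ N * G + 1 := by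
    rcases eq_or_lt_of_le (hu0 j) with h | h
    · rw [← h]
      have : (0 : ℝ) ≤ (G : ℝ) := by exact_mod_cast hG0
      positivity
    · have := le_of_mul_le_mul_right hsq h
      linarith
  have h11 : u i0 ≤ N * G + 1 := (hj i0 (Finset.mem_univ _)).trans hle
  rw [hu] at h11
  simp only at h11
  rwa [div_le_iff₀ (by positivity)] at h11

end Pool.Agent.Helper892.EC
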