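import Pool.Agent.Helper892.EC.Disc2
import Pool.Agent.Helper892.EC.Int
import Pool.Agent.Helper892.EC.Fib

/-!
The discriminants of the points of a fibre which is close to a ramified fibre.
-/

set_option autoImplicit false

open Polynomial Module NumberField

namespace Pool.Agent.Helper892.EC

variable {A : Type} [CommRing A] [Algebra ℚ[X] A] [Algebra ℚ A] [IsScalarTower ℚ ℚ[X] A] {N : ℕ}

/-- integral matrices attached to nilpotent elements of the fibre over `1` -/
theorem exists_mat (v : Basis (Fin N) ℚ[X] A) {ν : ℕ} (u : Fin ν → A)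
    (hu2 : ∀ i, u i ^ 2 ∈ fib A 1)
    (hu : LinearIndependent ℚ fun i => Ideal.Quotient.mk (fib A 1) (u i)) :
    ∃ (κ : ℤ) (τ : Matrix (Fin N) (Fin N) ℤ) (I : Finset (Fin N)) (S : Fin N → A), 0 < κ ∧
      τ.det ≠ 0 ∧ I.card = ν ∧
      (∀ i ∈ I, (∑ l, (τ i l) • v l) ^ 2 = algebraMap ℚ[X] A (X - C 1) * S i) ∧
      ∀ i l n, ∃ c : ℤ, (κ : ℚ) * (v.repr (S i) l).coeff n = c := by
  classical
  set bE := basE v 1 with hbE
  let ρ : Fin ν → (Fin N → ℚ) := fun i => bE.equivFun (Ideal.Quotient.mk (fib A 1) (u i))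
  have hρ : LinearIndependent ℚ ρ :=
    hu.map' bE.equivFun.toLinearMap (LinearEquiv.ker bE.equivFun)
  have hρ' : LinearIndepOn ℚ id (Set.range ρ) := hρ.linearIndepOn_id
  let bs := Basis.extend hρ'
  have hfin : Fintype (hρ'.extend (Set.subset_univ _)) := FiniteDimensional.fintypeBasisIndex bs
  have hcard : Fintype.card (Fin N) = Fintype.card (hρ'.extend (Set.subset_univ _)) := by
    rw [← finrank_eq_card_basis bs, finrank_fintype_fun_eq_card]
  let ε : Fin N ≃ (hρ'.extend (Set.subset_univ _)) := Fintype.equivOfCardEq hcard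
  let R : Matrix (Fin N) (Fin N) ℚ := Matrix.of fun i => bs (ε i)
  have hR : R.det ≠ 0 := by
    have h1 : LinearIndependent ℚ R.row := bs.linearIndependent.comp ε ε.injective
    exact ((Matrix.isUnit_iff_isUnit_det R).1 (Matrix.linearIndependent_rows_iff_isUnit.1 h1)).ne_zero
  have hmem : ∀ i' : Fin ν, ρ i' ∈ hρ'.extend (Set.subset_univ _) := fun i' =>
    Basis.subset_extend hρ' (Set.mem_range_self i')
  let g : Fin ν → Fin N := fun i' => ε.symm ⟨ρ i', hmem i'⟩
  have hg : Function.Injective g := by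
    intro x y hxy
    have h1 := ε.symm.injective hxy
    exact hρ.injective (congrArg Subtype.val h1)
  have hRl : ∀ i' : Fin ν, R (g i') = ρ i' := by
    intro i'
    change bs (ε (ε.symm ⟨ρ i', hmem i'⟩)) = ρ i'
    rw [Equiv.apply_symm_apply, Basis.extend_apply_self]
  -- a common denominator of the matrix
  obtain ⟨κ1, hκ1, hκ1'⟩ := exists_den fun p : Fin N × Fin N => (C (R p.1 p.2) : ℚ[X])
  have hτ : ∀ i l, ∃ c : ℤ, (κ1 : ℚ) * R i l = c := by
    intro i l
    obtain ⟨c, hc⟩ := hκ1' (i, l) 0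
    exact ⟨c, by simpa using hc⟩
  choose τ hτ using hτ
  have hdet : (Matrix.of τ).det ≠ 0 := by
    intro h0
    have h1 : (Matrix.of τ).map (Int.castRingHom ℚ) = (κ1 : ℚ) • R := by
      ext i l
      simp [hτ i l]
    have h2 := RingHom.map_det (Int.castRingHom ℚ) (Matrix.of τ)
    rw [RingHom.mapMatrix_apply, h1, h0, map_zero, Matrix.det_smul] at h2
    have h3 : (κ1 : ℚ) ≠ 0 := by exact_mod_cast hκ1.ne'
    exact mul_ne_zero (pow_ne_zero _ h3) hR h2.symm
  -- the elements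
  have hS : ∀ i' : Fin ν, ∃ s : A, (∑ l, (τ (g i') l) • v l) ^ 2 =
      algebraMap ℚ[X] A (X - C 1) * s := by
    intro i'
    set i := g i'
    have h1 : (κ1 : ℚ) • u i' - ∑ l, (τ i l) • v l ∈ fib A 1 := by
      rw [← Ideal.Quotient.eq]
      have h2 : Ideal.Quotient.mk (fib A 1) (u i') =
          ∑ l, R i l • Ideal.Quotient.mk (fib A 1) (v l) := by
        have h3 := bE.sum_equivFun (Ideal.Quotient.mk (fib A 1) (u i'))
        rw [← h3]
        refine Finset.sum_congr rfl fun l _ => ?_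
        rw [hRl i']
        congr 1
        rw [hbE, basE, Basis.mk_apply]
      have h4 : Ideal.Quotient.mk (fib A 1) ((κ1 : ℚ) • u i') =
          (κ1 : ℚ) • Ideal.Quotient.mk (fib A 1) (u i') := rfl
      rw [h4, h2, Finset.smul_sum, map_sum]
      refine Finset.sum_congr rfl fun l _ => ?_
      rw [smul_smul, hτ i l, map_zsmul]
      exact (Int.cast_smul_eq_zsmul ℚ _ _)
    have h5 : (∑ l, (τ i l) • v l) ^ 2 ∈ fib A 1 := by
      have e1 : ∑ l, (τ i l) • v l = (κ1 : ℚ) • u i' - ((κ1 : ℚ) • u i' - ∑ l, (τ i l) • v l) := by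
        ring
      rw [e1]
      have h6 : ((κ1 : ℚ) • u i') ^ 2 ∈ fib A 1 := by
        rw [_root_.smul_pow, Algebra.smul_def]
        exact Ideal.mul_mem_left _ _ (hu2 i')
      have e2 : ((κ1 : ℚ) • u i' - ((κ1 : ℚ) • u i' - ∑ l, (τ i l) • v l)) ^ 2 =
          ((κ1 : ℚ) • u i') ^ 2 + ((κ1 : ℚ) • u i' - ∑ l, (τ i l) • v l) *
            (((κ1 : ℚ) • u i' - ∑ l, (τ i l) • v l) - 2 * ((κ1 : ℚ) • u i')) := by ring
      rw [e2]
      exact Ideal.add_mem _ h6 (Ideal.mul_mem_right _ _ h1)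
    obtain ⟨s, hs⟩ := Ideal.mem_span_singleton'.1 h5
    exact ⟨s, by rw [← hs, mul_comm]⟩
  have hS' : ∀ i : Fin N, ∃ s : A, i ∈ Finset.univ.image g → (∑ l, (τ i l) • v l) ^ 2 =
      algebraMap ℚ[X] A (X - C 1) * s := by
    intro i
    by_cases hi : i ∈ Finset.univ.image g
    · obtain ⟨i', -, rfl⟩ := Finset.mem_image.1 hi
      obtain ⟨s, hs⟩ := hS i'
      exact ⟨s, fun _ => hs⟩
    · exact ⟨0, fun h => absurd h hi⟩
  choose S hS' using hS'
  obtain ⟨κ2, hκ2, hκ2'⟩ := exists_den fun p : Fin N × Fin N => v.repr (S p.1) p.2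
  refine ⟨κ2, Matrix.of τ, Finset.univ.image g, S, hκ2, hdet, ?_, fun i hi => hS' i hi,
    fun i l n => hκ2' (i, l) n⟩
  rw [Finset.card_image_of_injective _ hg, Finset.card_univ, Fintype.card_fin]


omit [Algebra ℚ[X] A] [IsScalarTower ℚ ℚ[X] A] in
lemma map_rat_smul {L : Type} [Field L] [CharZero L] (φ : A →+* L) (q : ℚ) (z : A) :
    φ (q • z) = (q : L) * φ z := by
  rw [Algebra.smul_def, map_mul]
  congr 1
  exact eq_ratCast (φ.comp (algebraMap ℚ A)) q

omit [Algebra ℚ A] [IsScalarTower ℚ ℚ[X] A] in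
/-- square roots of multiples of `a - b` -/
lemma sq_int {v : Basis (Fin N) ℚ[X] A} {e : Fin N → ℕ}
    (hw : ∀ i j l, ga v i j l ≠ 0 → (ga v i j l).natDegree + e l ≤ e i + e j) {κ : ℤ}
    (hκ : ∀ i j l n, ∃ c : ℤ, (κ : ℚ) * (ga v i j l).coeff n = c) {a b k p : ℕ} (hb : 0 < b)
    (hp : 0 < p) (hk : (p : ℤ) ^ (2 * k) ∣ (a : ℤ) - b) {M : ℕ} (U S : A)
    (hUS : U ^ 2 = algebraMap ℚ[X] A (X - C 1) * S)
    (hκS : ∀ l n, ∃ c : ℤ, (κ : ℚ) * (v.repr S l).coeff n = c)
    (hM : ∀ l, (v.repr S l).natDegree + e l + 1 ≤ 2 * M)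
    {L : Type} [Field L] [CharZero L] (φ : A →+* L)
    (ht : φ (algebraMap ℚ[X] A X) = (((a : ℚ) / b : ℚ) : L)) :
    IsIntegral ℤ ((κ : L) * (b : L) ^ M * φ U / (p : L) ^ k) := by
  obtain ⟨w, hw'⟩ := hk
  have hc : ∀ l, ∃ c : ℤ, (κ : ℚ) * ((b : ℚ) ^ (2 * M - 1 - e l) *
      (v.repr S l).eval ((a : ℚ) / b)) = c := fun l =>
    hom_int _ (by have := hM l; omega) (hκS l) hb
  choose c hc using hc
  have hbL : (b : L) ≠ 0 := by exact_mod_cast hb.ne'
  refine IsIntegral.of_pow (n := 2) (by norm_num) ?_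
  have h1 : ((κ : L) * (b : L) ^ M * φ U / (p : L) ^ k) ^ 2 =
      ∑ l, ((w * c l : ℤ) : L) * ((κ : L) * (b : L) ^ e l * φ (v l)) := by
    have e1 : φ U ^ 2 = (((a : ℚ) / b : ℚ) - 1 : L) * φ S := by
      rw [← map_pow, hUS, map_mul, map_scalar φ ht]
      congr 1
      simp
    have e2 : ((κ : L) * (b : L) ^ M * φ U / (p : L) ^ k) ^ 2 =
        (κ : L) ^ 2 * (b : L) ^ (2 * M) / (p : L) ^ (2 * k) * φ U ^ 2 := by
      rw [div_pow, mul_pow, mul_pow, ← pow_mul, ← pow_mul, mul_comm M 2, mul_comm k 2]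
      ring
    rw [e2, e1, map_eq v φ ht S, Finset.mul_sum, Finset.mul_sum]
    refine Finset.sum_congr rfl fun l _ => ?_
    have e3 : ((c l : ℤ) : L) = (κ : L) * ((b : L) ^ (2 * M - 1 - e l) *
        (((v.repr S l).eval ((a : ℚ) / b) : ℚ) : L)) := by
      have := congrArg (fun q : ℚ => (q : L)) (hc l)
      push_cast at this
      exact this.symm
    have e4 : (b : L) ^ (2 * M) = (b : L) * (b : L) ^ (2 * M - 1 - e l) * (b : L) ^ e l := by
      rw [mul_assoc, ← pow_add, ← pow_succ']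
      congr 1
      have := hM l
      omega
    have e5 : (b : L) * ((((a : ℚ) / b : ℚ) : L) - 1) = (p : L) ^ (2 * k) * (w : L) := by
      have : ((a : ℤ) - b : L) = ((p : ℤ) ^ (2 * k) * w : ℤ) := by
        rw [← hw']
        push_cast
        ring
      push_cast at this ⊢
      rw [mul_sub, mul_div_cancel₀ _ hbL, mul_one, this]
    push_cast
    rw [e3, e4]
    have h2 : (p : L) ^ (2 * k) ≠ 0 := pow_ne_zero _ (by exact_mod_cast hp.ne')
    calc (κ : L) ^ 2 * ((b : L) * (b : L) ^ (2 * M - 1 - e l) * (b : L) ^ e l) / (p : L) ^ (2 * k) *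
          (((a : L) / (b : L) - 1) * ((((v.repr S l).eval ((a : ℚ) / b) : ℚ) : L) * φ (v l))) =
          (κ : L) ^ 2 * ((b : L) ^ (2 * M - 1 - e l) * (b : L) ^ e l) / (p : L) ^ (2 * k) *
          (((b : L) * ((((a : ℚ) / b : ℚ) : L) - 1)) *
            ((((v.repr S l).eval ((a : ℚ) / b) : ℚ) : L) * φ (v l))) := by
            push_cast
            ring
      _ = _ := by
            rw [e5]
            field_simp
  rw [h1]
  refine IsIntegral.sum _ fun l _ => ?_
  exact (isIntegral_intCast _).mul (integral hw hκ hb φ ht l)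

end Pool.Agent.Helper892.EC
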