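import Pool.Agent.Helper892.EC.Core

/-!
The discriminants of the points of a fibre which is close to a ramified fibre (continued).
-/

set_option autoImplicit false

open Polynomial Module NumberField

namespace Pool.Agent.Helper892.EC

variable {A : Type} [CommRing A] [Algebra ℚ[X] A] [Algebra ℚ A] [IsScalarTower ℚ ℚ[X] A] {N : ℕ}

theorem core_abs (v : Basis (Fin N) ℚ[X] A) (e : Fin N → ℕ)
    (hw : ∀ i j l, ga v i j l ≠ 0 → (ga v i j l).natDegree + e l ≤ e i + e j) {ν : ℕ}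
    (u : Fin ν → A) (hu2 : ∀ i, u i ^ 2 ∈ fib A 1)
    (hu : LinearIndependent ℚ fun i => Ideal.Quotient.mk (fib A 1) (u i)) :
    ∃ C : ℝ, ∀ (a b k p : ℕ), 0 < b → b ≤ a → 0 < p → p.Coprime b →
      (p : ℤ) ^ (2 * k) ∣ (a : ℤ) - b →
      ∀ (J : Type) [Fintype J] (L : J → Type) [∀ j, Field (L j)] [∀ j, NumberField (L j)]
        (φ : ∀ j, A →+* L j),
        (∀ j, φ j (algebraMap ℚ[X] A X) = (((a : ℚ) / b : ℚ) : L j)) →
        (∀ z, (∀ j, φ j z = 0) → z ∈ fib A ((a : ℚ) / b)) → N = Fintype.card (Emb L) →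
        ∑ j, Real.log |(discr (L j) : ℝ)| ≤
          2 * (∑ i, e i : ℕ) * Real.log a - 2 * ν * k * Real.log p + C := by
  classical
  obtain ⟨κ0, hκ0, hκ0'⟩ := exists_den fun p : Fin N × Fin N × Fin N => ga v p.1 p.2.1 p.2.2
  obtain ⟨κ1, τ, I, S, hκ1, hτ, hI, hS, hκ1'⟩ := exists_mat v u hu2 hu
  obtain ⟨G, hG, harch⟩ := arch (v := v) (e := e) hw
  set κ : ℤ := κ0 * κ1 with hκdef
  have hκpos : 0 < κ := mul_pos hκ0 hκ1
  have hκg : ∀ i j l n, ∃ c : ℤ, (κ : ℚ) * (ga v i j l).coeff n = c := by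
    intro i j l n
    obtain ⟨c, hc⟩ := hκ0' (i, j, l) n
    refine ⟨κ1 * c, ?_⟩
    push_cast [hκdef]
    rw [← hc]
    ring
  have hκS : ∀ i l n, ∃ c : ℤ, (κ : ℚ) * (v.repr (S i) l).coeff n = c := by
    intro i l n
    obtain ⟨c, hc⟩ := hκ1' i l n
    refine ⟨κ0 * c, ?_⟩
    push_cast [hκdef]
    rw [← hc]
    ring
  let M : ℕ := ∑ l, e l + ∑ i, ∑ l, (v.repr (S i) l).natDegree + 1
  have hMe : ∀ l, e l ≤ M := by
    intro l
    have := Finset.single_le_sum (f := e) (fun _ _ => Nat.zero_le _) (Finset.mem_univ l)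
    simp only [M]
    omega
  have hMS : ∀ i l, (v.repr (S i) l).natDegree + e l + 1 ≤ 2 * M := by
    intro i l
    have h1 := Finset.single_le_sum (f := e) (fun _ _ => Nat.zero_le _) (Finset.mem_univ l)
    have h2 := Finset.single_le_sum (f := fun l => (v.repr (S i) l).natDegree)
      (fun _ _ => Nat.zero_le _) (Finset.mem_univ l)
    have h3 := Finset.single_le_sum (f := fun i => ∑ l, (v.repr (S i) l).natDegree)
      (fun _ _ => Nat.zero_le _) (Finset.mem_univ i)
    try simp only at h2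
    try simp only at h3
    simp only [M]
    omega
  refine ⟨2 * Real.log (Nat.factorial N) + 2 * (N * Real.log (κ * G)) +
    2 * Real.log |(τ.det : ℝ)|, ?_⟩
  intro a b k p hb hba hp hodd hk J _ L _ _ φ hφ hinj hcard
  have ha : 0 < a := lt_of_lt_of_le hb hba
  -- the integral elements
  let x : Fin N → ∀ j, 𝓞 (L j) := fun l j =>
    ⟨(κ : L j) * (b : L j) ^ e l * φ j (v l), integral hw hκg hb (φ j) (hφ j) l⟩
  have hxv : ∀ l j, (x l j : L j) = (κ : L j) * (b : L j) ^ e l * φ j (v l) := fun _ _ => rfl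
  have hz : ∀ i, i ∈ I → ∀ j, IsIntegral ℤ
      ((κ : L j) * (b : L j) ^ M * φ j (∑ l, (τ i l) • v l) / (p : L j) ^ k) := fun i hi j =>
    sq_int hw hκg hb hp hk _ (S i) (hS i hi) (hκS i) (hMS i) (φ j) (hφ j)
  let T : Matrix (Fin N) (Fin N) ℤ := Matrix.of fun i l => τ i l * (b : ℤ) ^ (M - e l)
  let s : Fin N → ℕ := fun i => if i ∈ I then k else 0
  let z : Fin N → ∀ j, 𝓞 (L j) := fun i j =>
    if hi : i ∈ I then ⟨_, hz i hi j⟩ else ∑ r, T i r • x r j
  have hx : LinearIndependent ℤ x := by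
    rw [Fintype.linearIndependent_iff]
    intro g hg l
    have h1 : ∀ j, φ j (∑ l, ((g l : ℚ) * (b : ℚ) ^ e l) • v l) = 0 := by
      intro j
      have h2 := congrArg (fun y : 𝓞 (L j) => (y : L j)) (congrFun hg j)
      simp only [Finset.sum_apply, Pi.smul_apply, Pi.zero_apply, map_sum, map_zero] at h2
      have h3 : (κ : L j) * φ j (∑ l, ((g l : ℚ) * (b : ℚ) ^ e l) • v l) = 0 := by
        rw [← h2, map_sum, Finset.mul_sum]
        refine Finset.sum_congr rfl fun l _ => ?_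
        rw [map_rat_smul, zsmul_eq_mul, map_mul, map_intCast]
        have h4 := hxv l j
        rw [show algebraMap (𝓞 (L j)) (L j) (x l j) = (x l j : L j) from rfl, h4]
        push_cast
        ring
      rcases mul_eq_zero.1 h3 with h | h
      · exact absurd h (by exact_mod_cast hκpos.ne')
      · exact h
    have h5 := (mem_fib_iff v _ _).1 (hinj _ h1) l
    rw [repr_comb, eval_C] at h5
    have hbq : (b : ℚ) ^ e l ≠ 0 := pow_ne_zero _ (by exact_mod_cast hb.ne')
    have h6 := (mul_eq_zero.1 h5).resolve_right hbq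
    exact_mod_cast h6
  have hxM : ∀ i (j : J) (σ : L j →+* ℂ), ‖σ (x i j : L j)‖ ≤ (κ * G) * (a : ℝ) ^ e i := by
    intro i j σ
    rw [hxv, map_mul, map_mul, map_intCast, map_pow, map_natCast, mul_assoc, norm_mul]
    have h1 := harch a b hb hba (σ.comp (φ j)) (by
      rw [RingHom.comp_apply, hφ j, map_ratCast]) i
    rw [RingHom.comp_apply] at h1
    have h2 : ‖(κ : ℂ)‖ = (κ : ℝ) := by
      rw [Complex.norm_intCast, abs_of_pos (by exact_mod_cast hκpos)]
    rw [h2, mul_assoc]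
    exact mul_le_mul_of_nonneg_left h1 (by exact_mod_cast hκpos.le)
  have hT : ∀ i, ∑ r, T i r • x r = (p : ℤ) ^ s i • z i := by
    intro i
    funext j
    by_cases hi : i ∈ I
    · have e1 : z i j = ⟨_, hz i hi j⟩ := dif_pos hi
      have e2 : s i = k := if_pos hi
      rw [e2]
      have eL : algebraMap (𝓞 (L j)) (L j) ((∑ r, T i r • x r) j) =
          ∑ r, (T i r : L j) * (x r j : L j) := by
        rw [Finset.sum_apply, map_sum]
        refine Finset.sum_congr rfl fun r _ => ?_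
        rw [Pi.smul_apply, zsmul_eq_mul, map_mul, map_intCast]
      have eR : algebraMap (𝓞 (L j)) (L j) ((((p : ℤ) ^ k) • z i) j) =
          (p : L j) ^ k * (z i j : L j) := by
        rw [Pi.smul_apply, zsmul_eq_mul, map_mul, map_intCast]
        push_cast
        rfl
      have h2 : (p : L j) ^ k ≠ 0 := pow_ne_zero _ (by exact_mod_cast hp.ne')
      have e3 : (z i j : L j) = (κ : L j) * (b : L j) ^ M * φ j (∑ l, (τ i l) • v l) / (p : L j) ^ k := by
        rw [e1]
        rfl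
      apply RingOfIntegers.ext
      refine eL.trans (Eq.trans ?_ eR.symm)
      rw [e3, mul_div_cancel₀ _ h2, map_sum, Finset.mul_sum]
      refine Finset.sum_congr rfl fun l _ => ?_
      rw [hxv, zsmul_eq_mul, map_mul, map_intCast]
      have e4 : (b : L j) ^ M = (b : L j) ^ (M - e l) * (b : L j) ^ e l := by
        rw [← pow_add]
        congr 1
        have := hMe l
        omega
      rw [e4]
      simp only [T, Matrix.of_apply]
      push_cast
      ring
    · have e1 : z i j = ∑ r, T i r • x r j := dif_neg hi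
      have e2 : s i = 0 := if_neg hi
      rw [e2, pow_zero, one_smul, e1, Finset.sum_apply]
      rfl
  have hdet : T.det = τ.det * ∏ l, (b : ℤ) ^ (M - e l) := by
    have h1 : T = τ * Matrix.diagonal fun l => (b : ℤ) ^ (M - e l) := by
      ext i l
      rw [Matrix.mul_diagonal]
      rfl
    rw [h1, Matrix.det_mul, Matrix.det_diagonal]
  have hdec : ∀ i1 i2 : DecidableEq (Fin N), @Matrix.det (Fin N) i1 _ ℤ _ T =
      @Matrix.det (Fin N) i2 _ ℤ _ T := fun i1 i2 => by rw [Subsingleton.elim i1 i2]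
  have hcop : IsCoprime (p : ℤ) (∏ l, (b : ℤ) ^ (M - e l)) := by
    refine IsCoprime.prod_right fun l _ => IsCoprime.pow_right ?_
    rw [Nat.isCoprime_iff_coprime]
    exact hodd
  have hmain := sum_log_discr (L := L) (ι := Fin N) (by rw [Fintype.card_fin, hcard]) x hx
    (fun i => (κ * G) * (a : ℝ) ^ e i) (fun i => by
      have : (0 : ℝ) < κ := by exact_mod_cast hκpos
      positivity) hxM T s z hp hT τ.det _ hτ hcop
    ((hdec _ _).trans hdet)
  have hsum : (∑ i, s i : ℕ) = ν * k := by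
    simp only [s]
    rw [Finset.sum_ite_mem, Finset.univ_inter, Finset.sum_const, hI, smul_eq_mul]
  have hlog : ∑ i, Real.log ((κ * G) * (a : ℝ) ^ e i) =
      N * Real.log (κ * G) + (∑ i, e i : ℕ) * Real.log a := by
    have h1 : ∀ i, Real.log ((κ * G) * (a : ℝ) ^ e i) = Real.log (κ * G) + e i * Real.log a := by
      intro i
      have h2 : (0 : ℝ) < κ := by exact_mod_cast hκpos
      rw [Real.log_mul (by positivity) (by positivity), Real.log_pow]
    rw [Finset.sum_congr rfl fun i _ => h1 i, Finset.sum_add_distrib, Finset.sum_const,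
      Finset.card_univ, Fintype.card_fin, nsmul_eq_mul, ← Finset.sum_mul]
    push_cast
    ring
  rw [hsum, hlog, Fintype.card_fin] at hmain
  push_cast at hmain ⊢
  linarith

theorem core (v : Basis (Fin N) ℚ[X] A) (e : Fin N → ℕ) (hN : 0 < N)
    (hw : ∀ i j l, ga v i j l ≠ 0 → (ga v i j l).natDegree + e l ≤ e i + e j) {ν : ℕ}
    (u : Fin ν → A) (hu2 : ∀ i, u i ^ 2 ∈ fib A 1)
    (hu : LinearIndependent ℚ fun i => Ideal.Quotient.mk (fib A 1) (u i)) :
    ∃ C : ℝ, ∀ (a b k p : ℕ), 0 < b → b ≤ a → 0 < p → p.Coprime b →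
      (p : ℤ) ^ (2 * k) ∣ (a : ℤ) - b →
      IsReduced (A ⧸ fib A ((a : ℚ) / b)) → ∀ (f : Ideal A → ℝ) (F : ℝ),
      F ≤ ∑ᶠ P ∈ pts A ((a : ℚ) / b), (finrank ℚ (A ⧸ P) : ℝ) * f P →
      ∃ P ∈ pts A ((a : ℚ) / b), ∃ (L : Type) (_ : Field L) (_ : NumberField L) (φ : A →+* L),
        Function.Surjective φ ∧ RingHom.ker φ = P ∧ finrank ℚ L ≤ N ∧
        Real.log |(discr L : ℝ)| / finrank ℚ L ≤ f P +
          ((2 * (∑ i, e i : ℕ) * Real.log a - 2 * ν * k * Real.log p + C) - F) / N := by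
  classical
  obtain ⟨C, hC⟩ := core_abs v e hw u hu2 hu
  refine ⟨C, fun a b k p hb hba hp hodd hk hred f F hF => ?_⟩
  let iT : Fintype (pts A ((a : ℚ) / b)) := (finite_pts v ((a : ℚ) / b)).fintype
  let iF : ∀ P : pts A ((a : ℚ) / b), Field (A ⧸ P.1) := fun P =>
    @Ideal.Quotient.field _ _ P.1 P.2.1
  have iN : ∀ P : pts A ((a : ℚ) / b), NumberField (A ⧸ P.1) := fun P => numberField_quot v P.2
  have hsum := sum_finrank v ((a : ℚ) / b) hred
  have hX := hC a b k p hb hba hp hodd hk (pts A ((a : ℚ) / b)) (fun P => A ⧸ P.1)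
    (fun P => Ideal.Quotient.mk P.1) (by
      intro P
      have h1 : Ideal.Quotient.mk P.1 (algebraMap ℚ[X] A (X - Polynomial.C ((a : ℚ) / b))) =
          0 := Ideal.Quotient.eq_zero_iff_mem.2 P.2.2
      rw [map_sub, map_sub, sub_eq_zero] at h1
      rw [h1]
      exact eq_ratCast (((Ideal.Quotient.mk P.1).comp (algebraMap ℚ[X] A)).comp Polynomial.C) _)
    (fun z hz => iInf_pts v _ hred z fun P hP => Ideal.Quotient.eq_zero_iff_mem.1 (hz ⟨P, hP⟩))
    (by
      rw [Fintype.card_sigma]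
      exact hsum.symm.trans (Finset.sum_congr rfl fun P _ => (card_emb v P.2 _).symm))
  have hn : ∀ P : pts A ((a : ℚ) / b), finrank ℚ (A ⧸ P.1) =
      @finrank ℚ (A ⧸ P.1) _ _ (DivisionRing.toRatAlgebra : Algebra ℚ (A ⧸ P.1)).toModule := by
    intro P
    have h3 : (DivisionRing.toRatAlgebra : Algebra ℚ (A ⧸ P.1)) = Ideal.Quotient.algebra ℚ :=
      Subsingleton.elim _ _
    rw [h3]
  have hpos : ∀ P : pts A ((a : ℚ) / b), (0 : ℝ) < finrank ℚ (A ⧸ P.1) := by
    intro P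
    have h1 : Module.Finite ℚ (A ⧸ P.1) := finite_quot v P.2
    have h2 : Nontrivial (A ⧸ P.1) := Ideal.Quotient.nontrivial_iff.2 P.2.1.ne_top
    have h3 : 0 < finrank ℚ (A ⧸ P.1) := Module.finrank_pos
    exact_mod_cast h3
  have hne : Nonempty (pts A ((a : ℚ) / b)) := by
    by_contra h
    rw [not_nonempty_iff] at h
    rw [Fintype.sum_empty] at hsum
    omega
  rw [← finsum_set_coe_eq_finsum_mem (pts A ((a : ℚ) / b)), finsum_eq_sum_of_fintype] at hF
  obtain ⟨P, hP⟩ := exists_le_avg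
    (fun P : pts A ((a : ℚ) / b) => Real.log |((discr (A ⧸ P.1) : ℤ) : ℝ)|)
    (fun P => f P.1) (fun P => (finrank ℚ (A ⧸ P.1) : ℝ)) hpos F _ hF hX
  refine ⟨P.1, P.2, A ⧸ P.1, iF P, iN P, Ideal.Quotient.mk P.1, Ideal.Quotient.mk_surjective,
    Ideal.mk_ker, ?_, ?_⟩
  · rw [← hn P, ← hsum]
    exact Finset.single_le_sum (f := fun P : pts A ((a : ℚ) / b) => finrank ℚ (A ⧸ P.1))
      (fun _ _ => Nat.zero_le _) (Finset.mem_univ P)
  have e1 : ∑ P : pts A ((a : ℚ) / b), (finrank ℚ (A ⧸ P.1) : ℝ) = N := by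
    exact_mod_cast hsum
  rw [e1] at hP
  simp only [hn P] at hP
  exact hP

end Pool.Agent.Helper892.EC
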