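import Mathlib

/-!
Discriminants of the factors of a product of number fields.
-/

set_option autoImplicit false

open NumberField Module Matrix Module.Free

namespace Pool.Agent.Helper892.EC

/-- the determinant of a block diagonal matrix (as in `Pool.Agent.Y114.AP.Charpoly`) -/
theorem det_bd {ι R : Type} [CommRing R] [Fintype ι] [DecidableEq ι] {m : ι → Type}
    [∀ i, Fintype (m i)] [∀ i, DecidableEq (m i)] (M : ∀ i, Matrix (m i) (m i) R) :
    (Matrix.blockDiagonal' M).det = ∏ i, (M i).det := by
  classical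
  let e := Fintype.equivFin ι
  let hlo : LinearOrder ι := LinearOrder.lift' e e.injective
  have h1 : (Matrix.blockDiagonal' M).BlockTriangular Sigma.fst := by
    rintro ⟨i, i'⟩ ⟨j, j'⟩ h
    exact Matrix.blockDiagonal'_apply_ne M i' j' fun h' => ne_of_lt h h'.symm
  have h2 : (Matrix.blockDiagonal' M).det =
      ∏ i, ((Matrix.blockDiagonal' M).toSquareBlock Sigma.fst i).det := by
    have := h1.det_fintype
    exact this
  rw [h2]
  refine Finset.prod_congr rfl fun i _ => ?_
  let f : m i ≃ {a : Σ i, m i // a.1 = i} :=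
    { toFun := fun x => ⟨⟨i, x⟩, rfl⟩
      invFun := fun a => a.2 ▸ a.1.2
      left_inv := fun x => rfl
      right_inv := by
        rintro ⟨⟨j, x⟩, rfl⟩
        rfl }
  rw [← Matrix.det_reindex_self f]
  congr 1
  ext ⟨⟨j, x⟩, hj⟩ ⟨⟨l, y⟩, hl⟩
  dsimp only at hj hl
  subst hj
  subst hl
  rw [Matrix.toSquareBlock_def, Matrix.of_apply, Matrix.reindex_apply, Matrix.submatrix_apply]
  exact Matrix.blockDiagonal'_apply_eq M _ _ _

variable {J : Type} [Fintype J] (L : J → Type) [∀ j, Field (L j)]
  [∀ j, NumberField (L j)]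

/-- the index type: the complex embeddings of the factors -/
abbrev Emb : Type := Σ j, (L j →+* ℂ)

/-- the basis of the ring of integers, indexed by the embeddings -/
noncomputable def bas (j : J) (τ : L j →+* ℂ) : 𝓞 (L j) :=
  RingOfIntegers.basis (L j) (equivReindex (L j) τ)

/-- the coordinates -/
noncomputable def co (x : ∀ j, 𝓞 (L j)) (t : Emb L) : ℤ :=
  (RingOfIntegers.basis (L t.1)).repr (x t.1) (equivReindex (L t.1) t.2)

variable {L}

lemma sum_co (x : ∀ j, 𝓞 (L j)) (j : J) : ∑ τ : L j →+* ℂ, co L x ⟨j, τ⟩ • bas L j τ = x j := by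
  classical
  have h := (RingOfIntegers.basis (L j)).sum_repr (x j)
  rw [← (equivReindex (L j)).sum_comp] at h
  exact h

lemma co_add (x y : ∀ j, 𝓞 (L j)) (t : Emb L) : co L (x + y) t = co L x t + co L y t := by
  simp [co]

lemma co_smul (c : ℤ) (x : ∀ j, 𝓞 (L j)) (t : Emb L) : co L (c • x) t = c * co L x t := by
  have h : (c • x) t.1 = c • x t.1 := rfl
  unfold co
  rw [h, map_smul, Finsupp.smul_apply, smul_eq_mul]

lemma co_sum {ι : Type} (s : Finset ι) (x : ι → ∀ j, 𝓞 (L j)) (t : Emb L) :
    co L (∑ i ∈ s, x i) t = ∑ i ∈ s, co L (x i) t := by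
  classical
  induction s using Finset.induction_on with
  | empty => simp [co]
  | insert a s ha ih => rw [Finset.sum_insert ha, Finset.sum_insert ha, co_add, ih]

/-- the matrix of the values of the embeddings -/
noncomputable def VV (x : Emb L → ∀ j, 𝓞 (L j)) : Matrix (Emb L) (Emb L) ℂ :=
  Matrix.of fun i σ => σ.2 (x i σ.1 : L σ.1)

open scoped Classical in
/-- the discriminants and the index -/
theorem disc_prod (x : Emb L → ∀ j, 𝓞 (L j)) (hx : LinearIndependent ℤ x) :
    ∃ c : ℤ, c ≠ 0 ∧ (VV x).det ^ 2 = (c : ℂ) ^ 2 * ∏ j, (discr (L j) : ℂ) ∧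
      ∀ (T : Matrix (Emb L) (Emb L) ℤ) (s : Emb L → ℕ) (z : Emb L → ∀ j, 𝓞 (L j)) (l : ℤ),
        (∀ i, ∑ r, T i r • x r = l ^ s i • z i) → l ^ (∑ i, s i) ∣ T.det * c := by
  classical
  let Cx : (Emb L → ∀ j, 𝓞 (L j)) → Matrix (Emb L) (Emb L) ℤ := fun x =>
    Matrix.of fun i t => co L (x i) t
  let Ω : Matrix (Emb L) (Emb L) ℂ := Matrix.blockDiagonal' fun j => basisMatrix (L j)
  refine ⟨(Cx x).det, ?_, ?_, ?_⟩
  · intro h0
    obtain ⟨v, hv0, hv⟩ := Matrix.exists_vecMul_eq_zero_iff.2 h0
    have h1 : ∑ i, v i • x i = 0 := by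
      funext j
      rw [← sum_co (∑ i, v i • x i) j]
      simp only [Pi.zero_apply]
      refine Finset.sum_eq_zero fun τ _ => ?_
      have h2 : co L (∑ i, v i • x i) ⟨j, τ⟩ = 0 := by
        rw [co_sum]
        have h3 := congrFun hv ⟨j, τ⟩
        simp only [Matrix.vecMul, dotProduct, Cx, Matrix.of_apply, Pi.zero_apply] at h3
        simpa only [co_smul] using h3
      rw [h2, zero_smul]
    have h2 := Fintype.linearIndependent_iff.1 hx v h1
    exact hv0 (funext h2)
  · have hmul : VV x = (Cx x).map (Int.castRingHom ℂ) * Ω := by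
      ext i ⟨j, σ⟩
      rw [Matrix.mul_apply, Fintype.sum_sigma, Finset.sum_eq_single j]
      · have h1 : (x i j : L j) = ∑ τ : L j →+* ℂ, ((co L (x i) ⟨j, τ⟩ : ℤ) : L j) * (bas L j τ : L j) := by
          conv_lhs => rw [← sum_co (x i) j]
          change algebraMap (𝓞 (L j)) (L j) _ = _
          rw [map_sum]
          refine Finset.sum_congr rfl fun τ _ => ?_
          rw [zsmul_eq_mul, map_mul, map_intCast]
        simp only [VV, Matrix.of_apply]
        rw [h1, map_sum]
        refine Finset.sum_congr rfl fun τ _ => ?_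
        rw [map_mul, map_intCast]
        simp only [Cx, Ω, Matrix.map_apply, Matrix.of_apply, Matrix.blockDiagonal'_apply_eq]
        congr 1
        simp [bas, canonicalEmbedding.latticeBasis_apply, integralBasis_apply]
      · intro j' _ hj'
        refine Finset.sum_eq_zero fun τ _ => ?_
        simp only [Ω]
        rw [Matrix.blockDiagonal'_apply_ne _ _ _ hj', mul_zero]
      · intro h
        exact absurd (Finset.mem_univ _) h
    rw [hmul, Matrix.det_mul, mul_pow]
    congr 1
    · have := RingHom.map_det (Int.castRingHom ℂ) (Cx x)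
      rw [RingHom.mapMatrix_apply] at this
      rw [← this]
      rfl
    · rw [det_bd, ← Finset.prod_pow]
      refine Finset.prod_congr rfl fun j _ => ?_
      have := discr_eq_basisMatrix_det_sq (L j)
      rw [this]
  · intro T s z l h
    have h1 : T * Cx x = Matrix.diagonal (fun i => l ^ s i) * Cx z := by
      ext i t
      rw [Matrix.mul_apply, Matrix.diagonal_mul]
      have h2 := congrArg (fun y => co L y t) (h i)
      simp only [co_smul, co_sum] at h2
      exact h2
    have h2 := congrArg Matrix.det h1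
    rw [Matrix.det_mul, Matrix.det_mul, Matrix.det_diagonal, Finset.prod_pow_eq_pow_sum] at h2
    exact ⟨_, h2⟩

end Pool.Agent.Helper892.EC
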