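import Pool.Agent.Helper892.EC.Disc

/-!
An upper bound for the product of the discriminants.
-/

set_option autoImplicit false

open NumberField Module Matrix Module.Free

namespace Pool.Agent.Helper892.EC

/-- the trivial bound for a determinant -/
lemma norm_det_le {ι : Type} [Fintype ι] [DecidableEq ι] (A : Matrix ι ι ℂ) (M : ι → ℝ)
    (hA : ∀ i j, ‖A i j‖ ≤ M i) : ‖A.det‖ ≤ (Fintype.card ι).factorial * ∏ i, M i := by
  rw [Matrix.det_apply]
  refine (norm_sum_le _ _).trans ?_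
  have h1 : ∀ σ ∈ (Finset.univ : Finset (Equiv.Perm ι)),
      ‖Equiv.Perm.sign σ • ∏ i, A (σ i) i‖ ≤ ∏ i, M i := by
    intro σ _
    have e1 : ‖Equiv.Perm.sign σ • ∏ i, A (σ i) i‖ = ‖∏ i, A (σ i) i‖ := by
      rcases Int.units_eq_one_or (Equiv.Perm.sign σ) with h | h
      · rw [h, one_smul]
      · rw [h, Units.neg_smul, one_smul, norm_neg]
    rw [e1, norm_prod, ← Equiv.prod_comp σ M]
    exact Finset.prod_le_prod (fun i _ => norm_nonneg _) fun i _ => hA _ _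
  refine (Finset.sum_le_sum h1).trans ?_
  rw [Finset.sum_const, Finset.card_univ, Fintype.card_perm, nsmul_eq_mul]

variable {J : Type} [Fintype J] {L : J → Type} [∀ j, Field (L j)] [∀ j, NumberField (L j)]

open scoped Classical in
/-- a bound for the product of the discriminants -/
theorem sum_log_discr {ι : Type} [Fintype ι] (hι : Fintype.card ι = Fintype.card (Emb L))
    (x : ι → ∀ j, 𝓞 (L j)) (hx : LinearIndependent ℤ x) (M : ι → ℝ) (hM : ∀ i, 0 < M i)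
    (hxM : ∀ i (j : J) (σ : L j →+* ℂ), ‖σ (x i j : L j)‖ ≤ M i)
    (T : Matrix ι ι ℤ) (s : ι → ℕ) (z : ι → ∀ j, 𝓞 (L j)) {p : ℕ} (hp : 0 < p)
    (hT : ∀ i, ∑ r, T i r • x r = (p : ℤ) ^ s i • z i) (κ β : ℤ) (hκ : κ ≠ 0)
    (hβ : IsCoprime (p : ℤ) β) (hdet : T.det = κ * β) :
    ∑ j, Real.log |(discr (L j) : ℝ)| ≤ 2 * Real.log ((Fintype.card ι).factorial) +
      2 * ∑ i, Real.log (M i) + 2 * Real.log |(κ : ℝ)| - 2 * (∑ i, s i : ℕ) * Real.log p := by
  obtain ⟨ε⟩ : Nonempty (ι ≃ Emb L) := ⟨Fintype.equivOfCardEq hι⟩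
  have hx' : LinearIndependent ℤ (x ∘ ε.symm) := hx.comp _ ε.symm.injective
  obtain ⟨c, hc0, hc1, hc2⟩ := disc_prod (x ∘ ε.symm) hx'
  have h1 := hc2 (T.submatrix ε.symm ε.symm) (s ∘ ε.symm) (z ∘ ε.symm) p (by
    intro i
    exact Eq.trans (ε.symm.sum_comp (fun r => T (ε.symm i) r • x r)) (hT (ε.symm i)))
  rw [Matrix.det_submatrix_equiv_self, hdet] at h1
  have e1 : ∑ i, (s ∘ ε.symm) i = ∑ i, s i := ε.symm.sum_comp s
  rw [e1] at h1
  have h2 : (p : ℤ) ^ (∑ i, s i) ∣ κ * c := by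
    have hcop : IsCoprime ((p : ℤ) ^ (∑ i, s i)) β := hβ.pow_left
    refine hcop.dvd_of_dvd_mul_right ?_
    have e2 : κ * c * β = κ * β * c := by ring
    rw [e2]
    exact h1
  have h3 : ((p : ℝ) ^ (∑ i, s i)) ≤ |(κ : ℝ)| * |(c : ℝ)| := by
    have h4 : ((p : ℤ) ^ (∑ i, s i)).natAbs ∣ (κ * c).natAbs := Int.natAbs_dvd_natAbs.2 h2
    have h5 := Nat.le_of_dvd (Int.natAbs_pos.2 (mul_ne_zero hκ hc0)) h4
    rw [Int.natAbs_pow, Int.natAbs_natCast, Int.natAbs_mul] at h5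
    have h6 : ((p ^ (∑ i, s i) : ℕ) : ℝ) ≤ ((κ.natAbs * c.natAbs : ℕ) : ℝ) := by exact_mod_cast h5
    push_cast at h6
    simpa only [Nat.cast_natAbs, Int.cast_abs] using h6
  -- the determinant
  have hV : ‖(VV (x ∘ ε.symm)).det‖ ≤ (Fintype.card ι).factorial * ∏ i, M i := by
    have h7 := norm_det_le (VV (x ∘ ε.symm)) (M ∘ ε.symm) (by
      intro i t
      exact hxM (ε.symm i) t.1 t.2)
    rw [← hι] at h7
    have e3 : ∏ i, (M ∘ ε.symm) i = ∏ i, M i := ε.symm.prod_comp M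
    rwa [e3] at h7
  have hD0 : ∀ j, (0 : ℝ) < |(discr (L j) : ℝ)| := fun j =>
    abs_pos.2 (by exact_mod_cast discr_ne_zero (L j))
  have hc0' : (0 : ℝ) < |(c : ℝ)| := abs_pos.2 (by exact_mod_cast hc0)
  have hκ0' : (0 : ℝ) < |(κ : ℝ)| := abs_pos.2 (by exact_mod_cast hκ)
  have hpr : (0 : ℝ) < p := by exact_mod_cast hp
  have h8 : |(c : ℝ)| ^ 2 * ∏ j, |(discr (L j) : ℝ)| ≤
      ((Fintype.card ι).factorial * ∏ i, M i) ^ 2 := by
    have h9 := congrArg norm hc1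
    rw [norm_pow, norm_mul, norm_pow, norm_prod] at h9
    have e4 : ‖(c : ℂ)‖ = |(c : ℝ)| := Complex.norm_intCast c
    have e5 : ∀ j, ‖(discr (L j) : ℂ)‖ = |(discr (L j) : ℝ)| := fun j => Complex.norm_intCast _
    rw [e4] at h9
    simp only [e5] at h9
    rw [← h9]
    exact pow_le_pow_left₀ (norm_nonneg _) hV 2
  have hprodD : (0 : ℝ) < ∏ j, |(discr (L j) : ℝ)| := Finset.prod_pos fun j _ => hD0 j
  have hprodM : (0 : ℝ) < ∏ i, M i := Finset.prod_pos fun i _ => hM i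
  have hfac : (0 : ℝ) < (Fintype.card ι).factorial := by exact_mod_cast Nat.factorial_pos _
  have h10 := Real.log_le_log (by positivity) h8
  rw [Real.log_mul (by positivity) hprodD.ne', Real.log_pow, Real.log_pow,
    Real.log_mul hfac.ne' hprodM.ne', Real.log_prod (fun j _ => (hD0 j).ne'),
    Real.log_prod (fun i _ => (hM i).ne')] at h10
  have h11 := Real.log_le_log (by positivity) h3
  rw [Real.log_pow, Real.log_mul hκ0'.ne' hc0'.ne'] at h11
  push_cast at h10 h11 ⊢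
  linarith

/-- the pigeonhole principle for averages -/
lemma exists_le_avg [Nonempty J] (D f n : J → ℝ) (hn : ∀ j, 0 < n j) (F X : ℝ)
    (hF : F ≤ ∑ j, n j * f j) (hX : ∑ j, D j ≤ X) :
    ∃ j, D j / n j ≤ f j + (X - F) / ∑ j, n j := by
  by_contra hcon
  push Not at hcon
  have hN : 0 < ∑ j, n j := Finset.sum_pos (fun j _ => hn j) Finset.univ_nonempty
  have h1 : ∑ j, n j * (f j + (X - F) / ∑ j, n j) < ∑ j, D j := by
    refine Finset.sum_lt_sum_of_nonempty Finset.univ_nonempty fun j _ => ?_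
    have := hcon j
    rw [lt_div_iff₀ (hn j)] at this
    linarith
  have h2 : ∑ j, n j * (f j + (X - F) / ∑ j, n j) = ∑ j, n j * f j + (X - F) := by
    simp only [mul_add, Finset.sum_add_distrib]
    congr 1
    rw [← Finset.sum_mul, mul_div_cancel₀ _ hN.ne']
  linarith

end Pool.Agent.Helper892.EC
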