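import Pool.Agent.Helper892.EC.Core2
import Pool.Agent.Helper892.EC.Param
import Pool.Agent.Helper892.ST.Pig
import Pool.Agent.Helper892.ST.Prm
import Pool.Agent.Helper892.ST.Arith

/-!
The error term of the truncated inequality on every curve.
-/

set_option autoImplicit false

open Polynomial Module NumberField IsDedekindDomain

namespace Pool.Agent.Helper892.EC

open Pool.Agent.Helper892.ST

variable {A : Type} [CommRing A] [Algebra ℚ[X] A] [Algebra ℚ A] [IsScalarTower ℚ ℚ[X] A] {N : ℕ}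

theorem main (v : Basis (Fin N) ℚ[X] A) (e : Fin N → ℕ)
    (hw : ∀ i j l, ga v i j l ≠ 0 → (ga v i j l).natDegree + e l ≤ e i + e j)
    (hA : {t : ℚ | ¬ IsReduced (A ⧸ fib A t)}.Finite) {ν : ℕ} (hν : 0 < ν)
    (u : Fin ν → A) (hu2 : ∀ i, u i ^ 2 ∈ fib A 1)
    (hu : LinearIndependent ℚ fun i => Ideal.Quotient.mk (fib A 1) (u i))
    (h : Ideal A → ℝ) (B : ℝ)
    (hh : ∀ t : ℚ, 2 * (∑ i, e i : ℕ) * Height.logHeight₁ t - B ≤
      ∑ᶠ P ∈ pts A t, (finrank ℚ (A ⧸ P) : ℝ) * h P)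
    (β : ℝ) (hβ0 : 0 < β) (hβ : β < ν / (N + ν)) (T : ℝ) :
    ∃ (t : ℚ) (P : Ideal A) (L : Type) (_ : Field L) (_ : NumberField L) (φ : A →+* L),
      P ∈ pts A t ∧ Function.Surjective φ ∧ RingHom.ker φ = P ∧ finrank ℚ L ≤ N ∧
      T < Height.logHeight₁ t ∧
      tcL ℚ ∅ (algebraMap ℚ L t) + Real.log |(discr L : ℝ)| / finrank ℚ L +
        (Height.logHeight₁ t) ^ β ≤ h P := by
  classical
  have hνN : ν ≤ N := by
    have h1 := finite_fib v 1
    have h2 := hu.fintype_card_le_finrank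
    rwa [Fintype.card_fin, finrank_fib v] at h2
  have hN : 0 < N := by omega
  have hNr : (0 : ℝ) < N := by exact_mod_cast hN
  have hνr : (0 : ℝ) < ν := by exact_mod_cast hν
  obtain ⟨C, hC⟩ := core v e hN hw u hu2 hu
  set ρ : ℝ := ν / N with hρ
  have hρ0 : 0 < ρ := by positivity
  have hρ1 : ρ ≤ 1 := by
    rw [hρ, div_le_one hNr]
    exact_mod_cast hνN
  have hβ' : β < ρ / (1 + ρ) := by
    refine hβ.trans_le (le_of_eq ?_)
    rw [hρ]
    field_simp
  set T1 : ℝ := ∑ t ∈ hA.toFinset, Height.logHeight₁ t with hT1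
  obtain ⟨Y, M, m, hpig, hT0, hpar⟩ := params ρ β hρ0 hρ1 hβ0 hβ'
    ((C + B) / N + ρ * Real.log 2) (max (max T T1) 0)
  obtain ⟨a, b, hb0, hba, hcop, hdvd, haR, hbR⟩ := pig 2 Nat.prime_two (TT Y)
    (fun p hp => mem_TT hp) M m hpig
  set R : ℕ := ∏ p ∈ TT Y, p with hR
  have hR0 : 0 < R := Finset.prod_pos fun p hp => (mem_TT hp).1.pos
  have hht : Height.logHeight₁ ((a : ℚ) / (b : ℚ)) = Real.log a := by
    have := ht_frac ℚ hb0 hba hcop
    rwa [finrank_self, Nat.cast_one, one_mul] at this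
  have ha0 : 0 < a := by omega
  have hlog : max (max T T1) 0 < Real.log a := by
    refine lt_of_le_of_lt hT0 ?_
    rw [← Real.log_pow]
    apply Real.log_lt_log (by positivity)
    have h1 : 2 ^ m ≤ a - b := Nat.le_of_dvd (by omega) hdvd
    have h2 : 2 ^ m < a := by omega
    exact_mod_cast h2
  have hlogT : T < Real.log a := lt_of_le_of_lt ((le_max_left _ _).trans (le_max_left _ _)) hlog
  have hlogB : T1 < Real.log a := lt_of_le_of_lt ((le_max_right _ _).trans (le_max_left _ _)) hlog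
  have hlog0 : 0 < Real.log a := lt_of_le_of_lt (le_max_right _ _) hlog
  have hred : IsReduced (A ⧸ fib A ((a : ℚ) / b)) := by
    by_contra hcon
    have h1 : (a : ℚ) / b ∈ hA.toFinset := hA.mem_toFinset.2 hcon
    have h2 := Finset.single_le_sum (f := fun t : ℚ => Height.logHeight₁ t)
      (fun t _ => Height.zero_le_logHeight₁ t) h1
    rw [hht] at h2
    linarith
  have h2b : (2 : ℕ).Coprime b := by
    have h2R : (2 : ℕ).Coprime R := by
      refine Nat.Coprime.prod_right fun p hp => ?_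
      exact (Nat.coprime_primes Nat.prime_two (mem_TT hp).1).2 (mem_TT hp).2.symm
    exact Nat.Coprime.coprime_dvd_right hbR (h2R.pow_right M)
  -- the exponent of two
  set k : ℕ := m / 2 with hk
  have hk1 : 2 * k ≤ m := Nat.mul_div_le m 2
  have hk2 : m ≤ 2 * k + 1 := by omega
  have hk3 : ((2 : ℕ) : ℤ) ^ (2 * k) ∣ (a : ℤ) - b := by
    have h1 : (2 : ℕ) ^ (2 * k) ∣ a - b := (pow_dvd_pow 2 hk1).trans hdvd
    have h2 : ((a - b : ℕ) : ℤ) = (a : ℤ) - b := Nat.cast_sub hba.le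
    rw [← h2]
    exact_mod_cast h1
  obtain ⟨P, hP, L, iF, iN, φ, hφs, hφk, hdeg, hld⟩ := hC a b k 2 hb0 hba.le (by norm_num) h2b hk3
    hred h _ (hh ((a : ℚ) / b))
  refine ⟨(a : ℚ) / b, P, L, iF, iN, φ, hP, hφs, hφk, hdeg, by rw [hht]; exact hlogT, ?_⟩
  rw [hht] at hld ⊢
  have htc : tcL ℚ ∅ (algebraMap ℚ L ((a : ℚ) / b)) ≤ Real.log R := by
    have := tc_le ℚ L ∅ hR0 haR hbR
    rwa [finrank_self, Nat.cast_one, one_mul] at this
  have hlogA : Real.log a ≤ M * Real.log (R : ℝ) := by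
    rw [← Real.log_pow]
    apply Real.log_le_log (by exact_mod_cast ha0)
    exact_mod_cast Nat.le_of_dvd (pow_pos hR0 _) haR
  have hp := hpar (Real.log a) hlog0.le hlogA
  have hl2 : 0 < Real.log 2 := Real.log_pos (by norm_num)
  have hk4 : (m : ℝ) ≤ 2 * k + 1 := by exact_mod_cast hk2
  have e1 : (2 * (∑ i, e i : ℕ) * Real.log a - 2 * ν * k * Real.log ((2 : ℕ) : ℝ) + C -
      (2 * (∑ i, e i : ℕ) * Real.log a - B)) / N =
      (C + B) / N - ρ * (2 * k * Real.log 2) := by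
    rw [hρ]
    push_cast
    field_simp
    ring
  rw [e1] at hld
  have e2 : ρ * (m * Real.log 2) ≤ ρ * (2 * k * Real.log 2) + ρ * Real.log 2 := by
    rw [← mul_add]
    refine mul_le_mul_of_nonneg_left ?_ hρ0.le
    have := mul_le_mul_of_nonneg_right hk4 hl2.le
    linarith
  linarith

end Pool.Agent.Helper892.EC
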