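import Pool.Agent.Helper892.EC.Main
import Pool.Agent.Helper892.ST.Plc

/-!
The error term of the inequality with proximity on every curve.
-/

set_option autoImplicit false

open Polynomial Module NumberField IsDedekindDomain

namespace Pool.Agent.Helper892.EC

open Pool.Agent.Helper892.ST Pool.Agent.Helper892.ER

variable {A : Type} [CommRing A] [Algebra ℚ[X] A] [Algebra ℚ A] [IsScalarTower ℚ ℚ[X] A] {N : ℕ}

theorem main2 (v : Basis (Fin N) ℚ[X] A) (e : Fin N → ℕ)
    (hw : ∀ i j l, ga v i j l ≠ 0 → (ga v i j l).natDegree + e l ≤ e i + e j)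
    (hA : {t : ℚ | ¬ IsReduced (A ⧸ fib A t)}.Finite) {ν : ℕ} (hν : 0 < ν)
    (u : Fin ν → A) (hu2 : ∀ i, u i ^ 2 ∈ fib A 1)
    (hu : LinearIndependent ℚ fun i => Ideal.Quotient.mk (fib A 1) (u i))
    (h : Ideal A → ℝ) (B : ℝ)
    (hh : ∀ t : ℚ, (2 * (∑ i, e i : ℕ) - 2 * N) * Height.logHeight₁ t - B ≤
      ∑ᶠ P ∈ pts A t, (finrank ℚ (A ⧸ P) : ℝ) * h P)
    (T : Finset ℕ) (hT : ∀ p ∈ T, p.Prime) (hTn : T.Nonempty) :
    ∃ C : ℝ, ∀ T0 : ℝ,
    ∃ (t : ℚ) (P : Ideal A) (L : Type) (_ : Field L) (_ : NumberField L) (φ : A →+* L),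
      P ∈ pts A t ∧ Function.Surjective φ ∧ RingHom.ker φ = P ∧ finrank ℚ L ≤ N ∧
      (∀ q : HeightOneSpectrum (𝓞 L), q ∉ abv T L → av q (algebraMap ℚ L t) = 1) ∧
      T0 < Height.logHeight₁ t ∧
      ν / N * T.card * Real.log (Height.logHeight₁ t) - C ≤
        h P + 2 * Height.logHeight₁ t - Real.log |(discr L : ℝ)| / finrank ℚ L := by
  classical
  have hνN : ν ≤ N := by
    have h1 := finite_fib v 1
    have h2 := hu.fintype_card_le_finrank
    rwa [Fintype.card_fin, finrank_fib v] at h2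
  have hN : 0 < N := by omega
  have hNr : (0 : ℝ) < N := by exact_mod_cast hN
  have hνr : (0 : ℝ) < ν := by exact_mod_cast hν
  set ρ : ℝ := ν / N with hρ
  have hρ0 : 0 < ρ := by positivity
  have hρ1 : ρ ≤ 1 := by
    rw [hρ, div_le_one hNr]
    exact_mod_cast hνN
  set T1 : ℝ := ∑ t ∈ hA.toFinset, Height.logHeight₁ t with hT1
  obtain ⟨p0, hp0n, hp0⟩ := Nat.exists_infinite_primes (∑ p ∈ T, p + 1)
  have hp0T : ∀ p ∈ T, p.Prime ∧ p ≠ p0 := by
    intro p hp
    refine ⟨hT p hp, ?_⟩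
    rintro rfl
    have := Finset.single_le_sum (f := fun p => p) (fun p _ => Nat.zero_le p) hp
    omega
  obtain ⟨C, hC⟩ := core v e hN hw u hu2 hu
  set R : ℕ := ∏ p ∈ T, p with hR
  have hR0 : 0 < R := Finset.prod_pos fun p hp => (hT p hp).pos
  have hs : 1 ≤ T.card := Finset.card_pos.2 hTn
  have hsr : (1 : ℝ) ≤ T.card := by exact_mod_cast hs
  have hlogR : 0 ≤ Real.log (R : ℝ) := Real.log_natCast_nonneg R
  have hlp : 0 < Real.log (p0 : ℝ) := Real.log_pos (by exact_mod_cast hp0.one_lt)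
  set M1 : ℝ := Real.log (R : ℝ) + 1 with hM1
  have hM11 : 1 ≤ M1 := by linarith
  refine ⟨(C + B) / N + 3 * Real.log p0 + T.card * Real.log M1, fun T0 => ?_⟩
  obtain ⟨M, hM⟩ := exists_nat_gt (Real.exp (max (max T0 T1) 0 + 2 * Real.log p0) + 1)
  have hM0 : (1 : ℝ) < M := by
    have := Real.exp_pos (max (max T0 T1) 0 + 2 * Real.log p0)
    linarith
  have hlogM : max (max T0 T1) 0 + 2 * Real.log p0 ≤ Real.log (M + 1) := by
    rw [Real.le_log_iff_exp_le (by linarith)]
    linarith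
  set X' : ℕ := (M + 1) ^ T.card with hX'
  have hlogX : (T.card : ℝ) * Real.log (M + 1) = Real.log X' := by
    rw [hX']
    push_cast
    rw [Real.log_pow]
  have hX0 : 0 < X' := by positivity
  have hX1 : Real.log (M + 1) ≤ Real.log X' := by
    rw [← hlogX]
    have : 0 ≤ Real.log ((M : ℝ) + 1) := Real.log_nonneg (by linarith)
    nlinarith
  have hXp : p0 ≤ X' := by
    have h1 : Real.log (p0 : ℝ) ≤ Real.log X' := by
      have : 0 ≤ max (max T0 T1) 0 := le_max_right _ _
      linarith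
    have h2 := (Real.log_le_log_iff (by exact_mod_cast hp0.pos) (by exact_mod_cast hX0)).1 h1
    exact_mod_cast h2
  have hlog1 : 1 ≤ Nat.log p0 X' := Nat.log_pos hp0.one_lt hXp
  set m : ℕ := Nat.log p0 X' - 1 with hm
  have hm1 : m + 1 = Nat.log p0 X' := by omega
  have hm2 : p0 ^ m < X' := by
    have h1 : p0 ^ (m + 1) ≤ X' := by
      rw [hm1]
      exact Nat.pow_log_le_self p0 hX0.ne'
    calc p0 ^ m < p0 ^ (m + 1) := Nat.pow_lt_pow_right hp0.one_lt (Nat.lt_succ_self m)
      _ ≤ X' := h1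
  have hm3 : Real.log X' ≤ (m + 2) * Real.log p0 := by
    have h1 : X' < p0 ^ (m + 2) := by
      have := Nat.lt_pow_succ_log_self (b := p0) hp0.one_lt X'
      rwa [← hm1] at this
    have h2 : (X' : ℝ) ≤ p0 ^ (m + 2) := by exact_mod_cast h1.le
    have h3 := Real.log_le_log (by exact_mod_cast hX0) h2
    rw [Real.log_pow] at h3
    push_cast at h3
    exact h3
  obtain ⟨a, b, hb0, hba, hcop, hdvd, haR, hbR⟩ := pig p0 hp0 T hp0T M m hm2
  have hht : Height.logHeight₁ ((a : ℚ) / (b : ℚ)) = Real.log a := by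
    have := ht_frac ℚ hb0 hba hcop
    rwa [finrank_self, Nat.cast_one, one_mul] at this
  have ha0 : 0 < a := by omega
  have hlog : max (max T0 T1) 0 < Real.log a := by
    have h0 : m * Real.log p0 < Real.log a := by
      rw [← Real.log_pow]
      apply Real.log_lt_log (pow_pos (by exact_mod_cast hp0.pos) _)
      have h1 : p0 ^ m ≤ a - b := Nat.le_of_dvd (by omega) hdvd
      have h2 : p0 ^ m < a := by omega
      exact_mod_cast h2
    linarith
  have hlogT : T0 < Real.log a := lt_of_le_of_lt ((le_max_left _ _).trans (le_max_left _ _)) hlog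
  have hlogB : T1 < Real.log a := lt_of_le_of_lt ((le_max_right _ _).trans (le_max_left _ _)) hlog
  have hlog0 : 0 < Real.log a := lt_of_le_of_lt (le_max_right _ _) hlog
  have hred : IsReduced (A ⧸ fib A ((a : ℚ) / b)) := by
    by_contra hcon
    have h1 : (a : ℚ) / b ∈ hA.toFinset := hA.mem_toFinset.2 hcon
    have h2 := Finset.single_le_sum (f := fun t : ℚ => Height.logHeight₁ t)
      (fun t _ => Height.zero_le_logHeight₁ t) h1
    rw [hht] at h2
    linarith
  have hpb : p0.Coprime b := by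
    have h2R : p0.Coprime R := by
      refine Nat.Coprime.prod_right fun p hp => ?_
      exact (Nat.coprime_primes hp0 (hp0T p hp).1).2 (hp0T p hp).2.symm
    exact Nat.Coprime.coprime_dvd_right hbR (h2R.pow_right M)
  set k : ℕ := m / 2 with hk
  have hk1 : 2 * k ≤ m := Nat.mul_div_le m 2
  have hk2 : m ≤ 2 * k + 1 := by omega
  have hk3 : (p0 : ℤ) ^ (2 * k) ∣ (a : ℤ) - b := by
    have h1 : p0 ^ (2 * k) ∣ a - b := (pow_dvd_pow p0 hk1).trans hdvd
    have h2 : ((a - b : ℕ) : ℤ) = (a : ℤ) - b := Nat.cast_sub hba.le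
    rw [← h2]
    exact_mod_cast h1
  obtain ⟨P, hP, L, iF, iN, φ, hφs, hφk, hdeg, hld⟩ := hC a b k p0 hb0 hba.le hp0.pos hpb hk3
    hred h _ (hh ((a : ℚ) / b))
  refine ⟨(a : ℚ) / b, P, L, iF, iN, φ, hP, hφs, hφk, hdeg, ?_, by rw [hht]; exact hlogT, ?_⟩
  · intro q hq
    have hRq : ((R : ℕ) : 𝓞 L) ∉ q.asIdeal := fun h => hq (mem_abv h)
    have h1 : av q (a : L) = 1 := by
      by_contra h
      exact hRq (av_nat_ne haR q h)
    have h2 : av q (b : L) = 1 := by
      by_contra h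
      exact hRq (av_nat_ne hbR q h)
    rw [map_div₀, map_natCast, map_natCast, map_div₀, h1, h2, div_one]
  · rw [hht] at hld ⊢
    have hlogaA : Real.log a ≤ M * Real.log (R : ℝ) := by
      rw [← Real.log_pow]
      apply Real.log_le_log (by exact_mod_cast ha0)
      exact_mod_cast Nat.le_of_dvd (pow_pos hR0 _) haR
    have g1 : Real.log (Real.log a) ≤ Real.log (M + 1) + Real.log M1 := by
      rw [← Real.log_mul (by linarith) (by linarith)]
      apply Real.log_le_log hlog0
      have h2 : (M : ℝ) * Real.log (R : ℝ) ≤ (M + 1) * M1 := by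
        rw [hM1]
        nlinarith
      linarith
    have g2 : ρ * T.card * Real.log (Real.log a) ≤
        ρ * (T.card * Real.log (M + 1)) + T.card * Real.log M1 := by
      have h1 : ρ * T.card * Real.log (Real.log a) ≤
          ρ * T.card * (Real.log (M + 1) + Real.log M1) :=
        mul_le_mul_of_nonneg_left g1 (by positivity)
      have h2 : ρ * (T.card * Real.log M1) ≤ 1 * (T.card * Real.log M1) :=
        mul_le_mul_of_nonneg_right hρ1 (mul_nonneg (by positivity) (Real.log_nonneg hM11))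
      nlinarith
    have g3 : ρ * (T.card * Real.log (M + 1)) ≤ ρ * (m * Real.log p0) + 2 * Real.log p0 := by
      rw [hlogX]
      have h1 : ρ * Real.log X' ≤ ρ * ((m + 2) * Real.log p0) :=
        mul_le_mul_of_nonneg_left hm3 hρ0.le
      have h2 : ρ * (2 * Real.log p0) ≤ 1 * (2 * Real.log p0) :=
        mul_le_mul_of_nonneg_right hρ1 (by positivity)
      nlinarith
    have hk4 : (m : ℝ) ≤ 2 * k + 1 := by exact_mod_cast hk2
    have g4 : ρ * (m * Real.log p0) ≤ ρ * (2 * k * Real.log p0) + Real.log p0 := by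
      have h1 : (m : ℝ) * Real.log p0 ≤ (2 * k + 1) * Real.log p0 :=
        mul_le_mul_of_nonneg_right hk4 hlp.le
      have h2 : ρ * (m * Real.log p0) ≤ ρ * ((2 * k + 1) * Real.log p0) :=
        mul_le_mul_of_nonneg_left h1 hρ0.le
      have h3 : ρ * Real.log p0 ≤ 1 * Real.log p0 := mul_le_mul_of_nonneg_right hρ1 hlp.le
      nlinarith
    have e1 : (2 * (∑ i, e i : ℕ) * Real.log a - 2 * ν * k * Real.log p0 + C -
        ((2 * (∑ i, e i : ℕ) - 2 * N) * Real.log a - B)) / N =
        (C + B) / N + 2 * Real.log a - ρ * (2 * k * Real.log p0) := by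
      rw [hρ]
      push_cast
      field_simp
      ring
    rw [e1] at hld
    linarith

end Pool.Agent.Helper892.EC
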